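import Pool.Agent.Q174.VK.Defs

/-! # Words, removals and substitutions -/

namespace Q174.VK

open Diagram

/-- The names of the crossings in a word. -/
def names (w : List Letter) : Finset ℕ := (w.map Prod.fst).toFinset

theorem mem_names {w : List Letter} {c : ℕ} : c ∈ names w ↔ ∃ l ∈ w, l.1 = c := by
  simp [names]

theorem fst_mem_names {w : List Letter} {l : Letter} (h : l ∈ w) : l.1 ∈ names w :=
  mem_names.2 ⟨l, h, rfl⟩

theorem names_append (u v : List Letter) : names (u ++ v) = names u ∪ names v := by
  ext c; simp [names]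

/-! ### Infixes -/

theorem Adj.map {w : List Letter} {x y : Letter} (h : Adj w x y) (f : Letter → Letter) :
    Adj (w.map f) (f x) (f y) := by
  obtain ⟨u, v, rfl⟩ := h
  exact ⟨u.map f, v.map f, by simp⟩

theorem infix_flatMap {α β : Type*} {l w : List α} (h : l <:+: w) (f : α → List β) :
    l.flatMap f <:+: w.flatMap f := by
  obtain ⟨u, v, rfl⟩ := h
  exact ⟨u.flatMap f, v.flatMap f, by simp⟩

theorem Adj.flatMap {w : List Letter} {x y : Letter} (h : Adj w x y)
    (f : Letter → List Letter) : f x ++ f y <:+: w.flatMap f := by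
  have := infix_flatMap h f
  simpa using this

theorem infix_flatMap_mem {α β : Type*} {w : List α} {x : α} (h : x ∈ w) (f : α → List β) :
    f x <:+: w.flatMap f := by
  obtain ⟨u, v, rfl⟩ := List.append_of_mem h
  exact ⟨u.flatMap f, v.flatMap f, by simp⟩

theorem Adj.mem_left {w : List Letter} {x y : Letter} (h : Adj w x y) : x ∈ w :=
  List.IsInfix.subset h (by simp)

theorem Adj.mem_right {w : List Letter} {x y : Letter} (h : Adj w x y) : y ∈ w :=
  List.IsInfix.subset h (by simp)

theorem filter_flatMap {α : Type*} {w : List α} {f : α → List α} {p : α → Bool}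
    (h : ∀ l ∈ w, (f l).filter p = if p l then f l else []) :
    (w.flatMap f).filter p = (w.filter p).flatMap f := by
  induction w with
  | nil => rfl
  | cons a w ih =>
    rw [List.flatMap_cons, List.filter_append, h a (by simp), List.filter_cons,
      ih (fun l hl => h l (by simp [hl]))]
    split_ifs
    · rw [List.flatMap_cons]
    · rfl

/-- Replacing the images of two neighbouring letters. -/
theorem pair_replace {α β : Type*} {w : List α} (hw : w.Nodup) {x y : α}
    (h : [x, y] <:+: w) {f g : α → List β} (hfg : ∀ m, m ≠ x → m ≠ y → f m = g m)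
    (hxy : f x ++ f y = g x ++ g y) : w.flatMap f = w.flatMap g := by
  obtain ⟨u, v, rfl⟩ := h
  have hu : ∀ m ∈ u, m ≠ x ∧ m ≠ y := by
    intro m hm
    simp only [List.nodup_append, List.mem_append, List.mem_cons, List.not_mem_nil,
      or_false] at hw
    exact ⟨hw.1.2.2 m hm x (by simp), hw.1.2.2 m hm y (by simp)⟩
  have hv : ∀ m ∈ v, m ≠ x ∧ m ≠ y := by
    intro m hm
    simp only [List.nodup_append, List.mem_append, List.mem_cons, List.not_mem_nil,
      or_false] at hw
    exact ⟨(hw.2.2 x (by simp) m hm).symm, (hw.2.2 y (by simp) m hm).symm⟩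
  have e1 : u.flatMap f = u.flatMap g :=
    List.flatMap_congr fun m hm => hfg m (hu m hm).1 (hu m hm).2
  have e2 : v.flatMap f = v.flatMap g :=
    List.flatMap_congr fun m hm => hfg m (hv m hm).1 (hv m hm).2
  simp only [List.flatMap_append, List.flatMap_cons, List.flatMap_nil, List.append_nil, e1, e2,
    ← List.append_assoc]
  rw [List.append_assoc (u.flatMap g), hxy]
  simp only [List.append_assoc]

/-! ### Removals -/

/-- A decreasing first or second Reidemeister move. -/
def Red (w w' : List Letter) : Prop := R1 w w' ∨ R2 w w'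

/-- A sequence of decreasing moves. -/
def RedStar : List Letter → List Letter → Prop := Relation.ReflTransGen Red

/-- A decreasing move removes all letters with certain names, each of which is present, and
two or four adjacent letters. -/
theorem Red.sublist {w w' : List Letter} (h : Red w w') : w'.Sublist w := by
  rcases h with ⟨c, o, s, h1, rfl⟩ | ⟨a, b, s, hab, h1, h2, rfl⟩
  · exact List.filter_sublist
  · exact List.filter_sublist

theorem RedStar.sublist {w w' : List Letter} (h : RedStar w w') : w'.Sublist w := by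
  induction h with
  | refl => exact List.Sublist.refl _
  | tail _ h ih => exact h.sublist.trans ih

/-- Transport of a decreasing move along an operation on words. -/
theorem Red.transport {G E G' E' : List Letter} (h : Red G E)
    (hadj : ∀ x y, Adj G x y → x ∉ E → y ∉ E → Adj G' x y)
    (hfil : ∀ p : Letter → Bool, (∀ l m : Letter, l.1 = m.1 → p l = p m) →
      (∀ c, (∃ o s, p (c, o, s) = false) → ∃ l ∈ G, l.1 = c ∧ l ∉ E) →
      E = G.filter p → E' = G'.filter p) : Red G' E' := by
  rcases h with ⟨c, o, s, h1, h2⟩ | ⟨a, b, s, hab, h1, h2, h3⟩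
  · left
    have hx : ∀ o s, (c, o, s) ∉ E := by
      intro o s; rw [h2]; simp
    refine ⟨c, o, s, hadj _ _ h1 (hx _ _) (hx _ _), hfil _ ?_ ?_ h2⟩
    · intro l m hlm; simp [hlm]
    · rintro c' ⟨o', s', h3⟩
      have : c' = c := by simpa using h3
      subst this
      exact ⟨_, h1.mem_left, rfl, hx _ _⟩
  · right
    have hx : ∀ o s, (a, o, s) ∉ E := by
      intro o s; rw [h3]; simp
    have hy : ∀ o s, (b, o, s) ∉ E := by
      intro o s; rw [h3]; simp
    refine ⟨a, b, s, hab, hadj _ _ h1 (hx _ _) (hy _ _), ?_, hfil _ ?_ ?_ h3⟩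
    · rcases h2 with h2 | h2
      · exact Or.inl (hadj _ _ h2 (hx _ _) (hy _ _))
      · exact Or.inr (hadj _ _ h2 (hy _ _) (hx _ _))
    · intro l m hlm; simp [hlm]
    · rintro c' ⟨o', s', h4⟩
      have h5 : c' = a ∨ c' = b := by
        by_contra hcon
        push Not at hcon
        simp [hcon.1, hcon.2] at h4
      rcases h5 with rfl | rfl
      · exact ⟨_, h1.mem_left, rfl, hx _ _⟩
      · exact ⟨_, h1.mem_right, rfl, hy _ _⟩

/-- Substituting words for letters which are not removed. -/
theorem Red.sub {G E : List Letter} (h : Red G E) (σ : Letter → List Letter)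
    (h1 : ∀ l ∈ G, l ∉ E → σ l = [l])
    (h2 : ∀ l ∈ E, ∀ m ∈ σ l, m.1 = l.1 ∨ m.1 ∉ names G) :
    Red (G.flatMap σ) (E.flatMap σ) := by
  refine h.transport ?_ ?_
  · intro x y hxy hx hy
    have := hxy.flatMap σ
    rw [h1 x hxy.mem_left hx, h1 y hxy.mem_right hy] at this
    exact this
  · intro p hp hc hE
    rw [hE]
    refine (filter_flatMap fun l hl => ?_).symm
    by_cases hpl : p l = true
    · rw [if_pos hpl, List.filter_eq_self]
      intro m hm
      have hlE : l ∈ E := by rw [hE, List.mem_filter]; exact ⟨hl, hpl⟩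
      rcases h2 l hlE m hm with h3 | h3
      · rw [hp m l h3]; exact hpl
      · by_contra hcon
        rw [Bool.not_eq_true] at hcon
        obtain ⟨l', hl', hl'1, _⟩ := hc m.1 ⟨m.2.1, m.2.2, hcon⟩
        exact h3 (mem_names.2 ⟨l', hl', hl'1⟩)
    · rw [if_neg hpl]
      have hlE : l ∉ E := by rw [hE, List.mem_filter]; exact fun h => hpl h.2
      rw [h1 l hl hlE]
      simp [hpl]

theorem RedStar.sub {G E : List Letter} (h : RedStar G E) (σ : Letter → List Letter)
    (h1 : ∀ l ∈ G, l ∉ E → σ l = [l])
    (h2 : ∀ l ∈ E, ∀ m ∈ σ l, m.1 = l.1 ∨ m.1 ∉ names G) :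
    RedStar (G.flatMap σ) (E.flatMap σ) := by
  induction h using Relation.ReflTransGen.head_induction_on with
  | refl => exact Relation.ReflTransGen.refl
  | @head G G' hstep hrest ih =>
    have hsub : E ⊆ G' := RedStar.sublist hrest |>.subset
    have hsub' : G' ⊆ G := hstep.sublist.subset
    refine Relation.ReflTransGen.head (hstep.sub σ ?_ ?_) (ih ?_ ?_)
    · intro l hl hl'
      exact h1 l hl fun h => hl' (hsub h)
    · intro l hl m hm
      by_cases hlE : l ∈ E
      · exact h2 l hlE m hm
      · rw [h1 l (hsub' hl) hlE] at hm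
        rw [List.mem_singleton] at hm
        exact Or.inl (by rw [hm])
    · intro l hl hl'
      exact h1 l (hsub' hl) hl'
    · intro l hl m hm
      rcases h2 l hl m hm with h3 | h3
      · exact Or.inl h3
      · refine Or.inr fun h4 => h3 ?_
        obtain ⟨l', hl', h5⟩ := mem_names.1 h4
        exact mem_names.2 ⟨l', hsub' hl', h5⟩

/-! ### Splitting -/

/-- Splitting a word according to a splitting of the word of its kept letters, such that the
first part does not end with a removed letter. -/
theorem exists_split {p : Letter → Bool} : ∀ {G u v : List Letter}, G.filter p = u ++ v →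
    ∃ G1 G2, G = G1 ++ G2 ∧ G1.filter p = u ∧ G2.filter p = v ∧
      ∀ x ∈ G1.getLast?, p x = true := by
  intro G
  induction G with
  | nil =>
    intro u v h
    simp only [List.filter_nil, List.nil_eq, List.append_eq_nil_iff] at h
    obtain ⟨rfl, rfl⟩ := h
    exact ⟨[], [], rfl, rfl, rfl, by simp⟩
  | cons a G ih =>
    intro u v h
    rcases u with _ | ⟨b, u⟩
    · exact ⟨[], a :: G, rfl, rfl, h, by simp⟩
    · by_cases ha : p a = true
      · rw [List.filter_cons_of_pos ha, List.cons_append, List.cons.injEq] at h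
        obtain ⟨rfl, h⟩ := h
        obtain ⟨G1, G2, rfl, h1, h2, h3⟩ := ih h
        refine ⟨a :: G1, G2, rfl, ?_, h2, ?_⟩
        · rw [List.filter_cons_of_pos ha, h1]
        · rcases G1 with _ | ⟨c, G1⟩
          · intro x hx
            simp only [List.getLast?_singleton, Option.mem_def, Option.some.injEq] at hx
            rw [← hx]; exact ha
          · intro x hx
            rw [List.getLast?_cons_cons] at hx
            exact h3 x hx
      · rw [List.filter_cons_of_neg ha] at h
        obtain ⟨G1, G2, rfl, h1, h2, h3⟩ := ih h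
        refine ⟨a :: G1, G2, rfl, ?_, h2, ?_⟩
        · rw [List.filter_cons_of_neg ha, h1]
        · rcases G1 with _ | ⟨c, G1⟩
          · simp at h1
          · intro x hx
            rw [List.getLast?_cons_cons] at hx
            exact h3 x hx

/-- A removed pair of neighbours lies in one of the two parts. -/
theorem adj_append {G1 G2 : List Letter} {x y : Letter} (h : Adj (G1 ++ G2) x y)
    (hx : x ∉ G1.getLast?) : Adj G1 x y ∨ Adj G2 x y := by
  obtain ⟨u, v, h⟩ := h
  rw [List.append_assoc] at h
  rcases List.append_eq_append_iff.1 h with ⟨r, h1, h2⟩ | ⟨r, h1, h2⟩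
  · -- `G1 = u ++ r`
    rcases r with _ | ⟨a, r⟩
    · right
      refine ⟨[], v, ?_⟩
      simpa using h2
    · simp only [List.cons_append, List.nil_append, List.cons.injEq] at h2
      obtain ⟨rfl, h2⟩ := h2
      rcases r with _ | ⟨b, r⟩
      · exfalso
        apply hx
        rw [h1]
        simp
      · simp only [List.cons_append, List.cons.injEq] at h2
        obtain ⟨rfl, h2⟩ := h2
        left
        exact ⟨u, r, by rw [h1]; simp⟩
  · right
    exact ⟨r, v, by rw [h2]; simp⟩

theorem Adj.append_left {w : List Letter} {x y : Letter} (h : Adj w x y) (u : List Letter) :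
    Adj (u ++ w) x y := List.IsInfix.trans h ⟨u, [], by simp⟩

theorem Adj.append_right {w : List Letter} {x y : Letter} (h : Adj w x y) (u : List Letter) :
    Adj (w ++ u) x y := List.IsInfix.trans h ⟨[], u, by simp⟩

/-- Inserting words at two places. -/
theorem RedStar.insert {G u v t : List Letter} (h : RedStar G (u ++ v ++ t)) :
    ∃ G1 G2 G3, G = G1 ++ G2 ++ G3 ∧ ∀ X Y : List Letter,
      (∀ x ∈ X ++ Y, x.1 ∉ names G) → RedStar (G1 ++ X ++ G2 ++ Y ++ G3)
        (u ++ X ++ v ++ Y ++ t) := by
  generalize hE : u ++ v ++ t = E at h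
  induction h using Relation.ReflTransGen.head_induction_on with
  | refl => exact ⟨u, v, t, hE.symm, fun X Y _ => Relation.ReflTransGen.refl⟩
  | @head G G' hstep hrest ih =>
    obtain ⟨K1, K2, K3, hK, hK'⟩ := ih
    -- split `G`
    have key : ∃ G1 G2 G3, G = G1 ++ G2 ++ G3 ∧ ∀ X Y : List Letter,
        (∀ x ∈ X ++ Y, x.1 ∉ names G) →
        Red (G1 ++ X ++ G2 ++ Y ++ G3) (K1 ++ X ++ K2 ++ Y ++ K3) := by
      have main : ∀ p : Letter → Bool, (∀ l m : Letter, l.1 = m.1 → p l = p m) →
          G' = G.filter p → ∃ G1 G2 G3, G = G1 ++ G2 ++ G3 ∧ G1.filter p = K1 ∧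
          G2.filter p = K2 ∧ G3.filter p = K3 ∧
          ∀ x y, Adj G x y → p x = false → p y = false →
            Adj G1 x y ∨ Adj G2 x y ∨ Adj G3 x y := by
        intro p hp hG'
        rw [hK] at hG'
        obtain ⟨G12, G3, rfl, h1, h2, h3⟩ := exists_split hG'.symm
        obtain ⟨G1, G2, rfl, h4, h5, h6⟩ := exists_split h1
        refine ⟨G1, G2, G3, rfl, h4, h5, h2, ?_⟩
        intro x y hxy hx hy
        have hx1 : x ∉ (G1 ++ G2).getLast? := fun h => by
          have := h3 x h
          rw [this] at hx; exact absurd hx (by simp)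
        have hx2 : x ∉ G1.getLast? := fun h => by
          have := h6 x h
          rw [this] at hx; exact absurd hx (by simp)
        rcases adj_append hxy hx1 with h7 | h7
        · rcases adj_append h7 hx2 with h8 | h8
          · exact Or.inl h8
          · exact Or.inr (Or.inl h8)
        · exact Or.inr (Or.inr h7)
      have fin : ∀ G1 G2 G3 X Y : List Letter, ∀ x y,
          (Adj G1 x y ∨ Adj G2 x y ∨ Adj G3 x y) →
          Adj (G1 ++ X ++ G2 ++ Y ++ G3) x y := by
        intro G1 G2 G3 X Y x y h
        rcases h with h | h | h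
        · exact (((h.append_right X).append_right G2).append_right Y).append_right G3
        · exact ((h.append_left (G1 ++ X)).append_right Y).append_right G3
        · exact h.append_left (G1 ++ X ++ G2 ++ Y)
      have filt : ∀ (p : Letter → Bool) (X : List Letter), (∀ x ∈ X, p x = true) →
          X.filter p = X := fun p X h => List.filter_eq_self.2 h
      rcases hstep with ⟨c, o, s, h1, h2⟩ | ⟨a, b, s, hab, h1, h2, h3⟩
      · obtain ⟨G1, G2, G3, e0, e1, e2, e3, e4⟩ := main _ (by intro l m h; simp [h]) h2
        refine ⟨G1, G2, G3, e0, fun X Y hXY => Or.inl ⟨c, o, s, fin _ _ _ _ _ _ _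
          (e4 _ _ h1 (by simp) (by simp)), ?_⟩⟩
        have hX : ∀ x ∈ X ++ Y, x.1 ≠ c := by
          intro x hx hxc
          exact hXY x hx (by rw [hxc]; exact fst_mem_names h1.mem_left)
        simp only [List.filter_append, e1, e2, e3]
        rw [filt _ X (fun x hx => by simpa using hX x (by simp [hx])),
          filt _ Y (fun x hx => by simpa using hX x (by simp [hx]))]
      · obtain ⟨G1, G2, G3, e0, e1, e2, e3, e4⟩ := main _ (by intro l m h; simp [h]) h3
        refine ⟨G1, G2, G3, e0, fun X Y hXY => Or.inr ⟨a, b, s, hab, fin _ _ _ _ _ _ _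
          (e4 _ _ h1 (by simp) (by simp)), ?_, ?_⟩⟩
        · rcases h2 with h2 | h2
          · exact Or.inl (fin _ _ _ _ _ _ _ (e4 _ _ h2 (by simp) (by simp)))
          · exact Or.inr (fin _ _ _ _ _ _ _ (e4 _ _ h2 (by simp) (by simp)))
        · have hX : ∀ x ∈ X ++ Y, x.1 ≠ a ∧ x.1 ≠ b := by
            intro x hx
            exact ⟨fun hxc => hXY x hx (by rw [hxc]; exact fst_mem_names h1.mem_left),
              fun hxc => hXY x hx (by rw [hxc]; exact fst_mem_names h1.mem_right)⟩
          simp only [List.filter_append, e1, e2, e3]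
          rw [filt _ X (fun x hx => by simpa using hX x (by simp [hx])),
            filt _ Y (fun x hx => by simpa using hX x (by simp [hx]))]
    obtain ⟨G1, G2, G3, hG, hred⟩ := key
    refine ⟨G1, G2, G3, hG, fun X Y hXY => Relation.ReflTransGen.head (hred X Y hXY)
      (hK' X Y ?_)⟩
    intro x hx hx'
    refine hXY x hx ?_
    obtain ⟨l, hl, hlx⟩ := mem_names.1 hx'
    exact mem_names.2 ⟨l, hstep.sublist.subset hl, hlx⟩

/-- Rotations. -/
theorem RedStar.rotate {G u v : List Letter} (h : RedStar G (u ++ v)) :
    ∃ G1 G2, G = G1 ++ G2 ∧ RedStar (G2 ++ G1) (v ++ u) := by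
  generalize hE : u ++ v = E at h
  induction h using Relation.ReflTransGen.head_induction_on with
  | refl => exact ⟨u, v, hE.symm, Relation.ReflTransGen.refl⟩
  | @head G G' hstep hrest ih =>
    obtain ⟨K1, K2, hK, hK'⟩ := ih
    have main : ∀ p : Letter → Bool, G' = G.filter p → ∃ G1 G2, G = G1 ++ G2 ∧
        G1.filter p = K1 ∧ G2.filter p = K2 ∧
        ∀ x y, Adj G x y → p x = false → p y = false → Adj (G2 ++ G1) x y := by
      intro p hG'
      rw [hK] at hG'
      obtain ⟨G1, G2, rfl, h1, h2, h3⟩ := exists_split hG'.symm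
      refine ⟨G1, G2, rfl, h1, h2, ?_⟩
      intro x y hxy hx hy
      have hx1 : x ∉ G1.getLast? := fun h => by
        have := h3 x h
        rw [this] at hx; exact absurd hx (by simp)
      rcases adj_append hxy hx1 with h7 | h7
      · exact h7.append_left G2
      · exact h7.append_right G1
    rcases hstep with ⟨c, o, s, h1, h2⟩ | ⟨a, b, s, hab, h1, h2, h3⟩
    · obtain ⟨G1, G2, e0, e1, e2, e4⟩ := main _ h2
      refine ⟨G1, G2, e0, Relation.ReflTransGen.head (Or.inl ⟨c, o, s,
        e4 _ _ h1 (by simp) (by simp), ?_⟩) hK'⟩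
      rw [List.filter_append, e1, e2]
    · obtain ⟨G1, G2, e0, e1, e2, e4⟩ := main _ h3
      refine ⟨G1, G2, e0, Relation.ReflTransGen.head (Or.inr ⟨a, b, s, hab,
        e4 _ _ h1 (by simp) (by simp), ?_, ?_⟩) hK'⟩
      · rcases h2 with h2 | h2
        · exact Or.inl (e4 _ _ h2 (by simp) (by simp))
        · exact Or.inr (e4 _ _ h2 (by simp) (by simp))
      · rw [List.filter_append, e1, e2]

end Q174.VK
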