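import Mathlib

/-!
# Virtual knots as Gauss diagrams

An oriented virtual knot diagram is recorded, up to the moves involving virtual crossings
(equivalently, up to the detour move), by its Gauss diagram: travelling once along the knot
one writes down the classical crossings one meets, each time with the information whether one
passes over or under, and with the sign of the crossing.  Every such word in which each
crossing occurs exactly twice, once over and once under and both times with the same sign, is
the Gauss diagram of a virtual knot diagram, and two virtual knot diagrams represent the same
virtual knot if and only if their Gauss diagrams are related by the (classical) Reidemeister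
moves below (Goussarov, Polyak, Viro; Kauffman).
-/

namespace Q174.VK

/-- A letter `(c, o, s)` of a Gauss diagram: the crossing `c` is passed, over if `o` is
`true` and under if `o` is `false`; the sign of the crossing is positive if `s` is `true` and
negative if `s` is `false`. -/
abbrev Letter : Type := ℕ × Bool × Bool

/-- The Gauss diagram of a virtual knot diagram: the word of the classical crossings met when
travelling once along the knot (from some base point). -/
structure Diagram where
  /-- the word -/
  word : List Letter
  /-- each crossing is passed at most once over and at most once under -/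
  nodup : (word.map fun l => (l.1, l.2.1)).Nodup
  /-- a crossing which is passed over is also passed under, and conversely, with the same
  sign -/
  mate : ∀ c o s, (c, o, s) ∈ word → (c, !o, s) ∈ word

/-- The letter `y` follows immediately after the letter `x`. -/
def Adj (w : List Letter) (x y : Letter) : Prop := [x, y] <:+: w

/-- First Reidemeister move, removing the crossing `c`, whose two passages follow each
other. -/
def R1 (w w' : List Letter) : Prop :=
  ∃ (c : ℕ) (o s : Bool), Adj w (c, o, s) (c, !o, s) ∧ w' = w.filter (fun l => l.1 ≠ c)

/-- Second Reidemeister move, removing two crossings `a`, `b` of opposite signs: one strand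
passes over at `a` and immediately afterwards over at `b`; the other strand passes under
immediately one after the other, in this or in the reverse order. -/
def R2 (w w' : List Letter) : Prop :=
  ∃ (a b : ℕ) (s : Bool), a ≠ b ∧ Adj w (a, true, s) (b, true, !s) ∧
    (Adj w (a, false, s) (b, false, !s) ∨ Adj w (b, false, !s) (a, false, s)) ∧
    w' = w.filter (fun l => l.1 ≠ a ∧ l.1 ≠ b)

/-- Third Reidemeister move.  There are three strands forming a triangle.  The top strand
passes over a strand `P` at the crossing `p` and immediately afterwards over a strand `Q` at
the crossing `q`; the strands `P` and `Q` cross each other at `g`, and `P` is the over strand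
at `g` if and only if `oP`.  On `P` the crossings `p` and `g` follow each other, first `p` if
and only if `bP`; on `Q` the crossings `q` and `g` follow each other, first `q` if and only if
`bQ`.  The next two conditions express that the three strands bound a triangle: they say
`sign q = β_P β_Q sign p` and `γ = β_Q sign p`, where `β_P = ±1`, `β_Q = ±1` according to
`bP`, `bQ`, and `γ` is the sign which `g` has, or would have, with `P` as over strand.
The move exchanges the order of the two crossings on each of the three strands. -/
def R3 (w w' : List Letter) : Prop :=
  ∃ (p q g : ℕ) (sp sq sg oP bP bQ : Bool), p ≠ q ∧ p ≠ g ∧ q ≠ g ∧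
    Adj w (p, true, sp) (q, true, sq) ∧
    (if bP then Adj w (p, false, sp) (g, oP, sg) else Adj w (g, oP, sg) (p, false, sp)) ∧
    (if bQ then Adj w (q, false, sq) (g, !oP, sg) else Adj w (g, !oP, sg) (q, false, sq)) ∧
    sq = (sp == (bP == bQ)) ∧ (sg == oP) = (bQ == sp) ∧
    w' = w.map (Equiv.swap (p, true, sp) (q, true, sq) *
      Equiv.swap (p, false, sp) (g, oP, sg) * Equiv.swap (q, false, sq) (g, !oP, sg))

/-- Change of the base point. -/
def Rotation (w w' : List Letter) : Prop := ∃ u v, w = u ++ v ∧ w' = v ++ u

/-- Change of the names of the crossings. -/
def Renaming (w w' : List Letter) : Prop :=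
  ∃ π : Equiv.Perm ℕ, w' = w.map fun l => (π l.1, l.2)

/-- The elementary moves between Gauss diagrams. -/
def Move (D E : Diagram) : Prop :=
  R1 D.word E.word ∨ R2 D.word E.word ∨ R3 D.word E.word ∨ Rotation D.word E.word ∨
    Renaming D.word E.word

/-- Two diagrams represent the same virtual knot: they are related by a finite sequence of
moves and inverses of moves. -/
def SameKnot (D E : Diagram) : Prop := Relation.EqvGen Move D E

namespace Diagram

/-- The set of classical crossings of a diagram. -/
def crossings (D : Diagram) : Finset ℕ := (D.word.map Prod.fst).toFinset

/-- The diagram without classical crossings. -/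
def unknot : Diagram := ⟨[], by simp, by simp⟩

/-- The effect on a letter of changing the crossings in `C`: the other strand is now the over
strand, and the sign of the crossing is the opposite one. -/
def changeLetter (C : Finset ℕ) (l : Letter) : Letter :=
  if l.1 ∈ C then (l.1, !l.2.1, !l.2.2) else l

theorem changeLetter_changeLetter (C : Finset ℕ) (l : Letter) :
    changeLetter C (changeLetter C l) = l := by
  unfold changeLetter
  by_cases h : l.1 ∈ C
  · simp [h]
  · simp [h]

/-- Simultaneous crossing change at all crossings in `C`. -/
def change (D : Diagram) (C : Finset ℕ) : Diagram where
  word := D.word.map (changeLetter C)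
  nodup := by
    have h := D.nodup
    rw [List.map_map] at *
    have h2 : (D.word.map ((fun l : Letter => (l.1, l.2.1)) ∘ changeLetter C)) =
        (D.word.map fun l => (l.1, l.2.1)).map
          (fun k : ℕ × Bool => if k.1 ∈ C then (k.1, !k.2) else k) := by
      rw [List.map_map]
      refine List.map_congr_left fun l _ => ?_
      simp only [Function.comp_apply, changeLetter]
      split_ifs <;> rfl
    rw [h2]
    refine List.Nodup.map ?_ (by simpa using D.nodup)
    rintro ⟨a, b⟩ ⟨c, d⟩ hab
    dsimp only at hab
    by_cases h3 : a ∈ C <;> by_cases h4 : c ∈ C <;> simp_all
  mate := by
    intro c o s hc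
    rw [List.mem_map] at hc ⊢
    obtain ⟨⟨c', o', s'⟩, h1, h2⟩ := hc
    refine ⟨(c', !o', s'), D.mate _ _ _ h1, ?_⟩
    simp only [changeLetter] at h2 ⊢
    split_ifs at h2 ⊢ with h3
    · simp only [Prod.mk.injEq] at h2
      obtain ⟨rfl, rfl, rfl⟩ := h2
      simp
    · simp only [Prod.mk.injEq] at h2
      obtain ⟨rfl, rfl, rfl⟩ := h2
      rfl

/-- Simultaneous virtualization of all crossings in `C`: they become virtual crossings, so
that they disappear from the Gauss diagram. -/
def virtualize (D : Diagram) (C : Finset ℕ) : Diagram where
  word := D.word.filter (fun l => l.1 ∉ C)
  nodup := List.Nodup.sublist (List.Sublist.map _ List.filter_sublist) D.nodup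
  mate := by
    intro c o s hc
    rw [List.mem_filter] at hc ⊢
    exact ⟨D.mate _ _ _ hc.1, by simpa using hc.2⟩

end Diagram

/-! ## Crossing changes -/

open Diagram

/-- The unknotting number: the least `n` such that on some diagram of the virtual knot `n`
simultaneous crossing changes yield a diagram of the unknot (`⊤` if there is no such `n`). -/
noncomputable def unknottingNumber (K : Diagram) : ℕ∞ :=
  sInf {n | ∃ (D : Diagram) (C : Finset ℕ), SameKnot K D ∧ C ⊆ D.crossings ∧
    SameKnot (D.change C) unknot ∧ n = C.card}

/-- `Unknots K n`: the diagram `K` can be turned into a diagram of the unknot by alternately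
applying finite sequences of moves and changing some classical crossings; `n` is the total
number of crossing changes. -/
inductive Unknots : Diagram → ℕ → Prop
  | done (K : Diagram) : SameKnot K unknot → Unknots K 0
  | step (K D : Diagram) (C : Finset ℕ) (n : ℕ) : SameKnot K D → C ⊆ D.crossings →
      Unknots (D.change C) n → Unknots K (C.card + n)

/-- The unknotting sequence number: the least total number of crossing changes in such a
procedure (`⊤` if there is none). -/
noncomputable def unknottingSequenceNumber (K : Diagram) : ℕ∞ :=
  sInf {n | ∃ m : ℕ, Unknots K m ∧ n = m}

/-! ## Virtualizations -/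

/-- The virtual unknotting number: the least `n` such that on some diagram of the virtual knot
`n` simultaneous virtualizations yield a diagram of the unknot. -/
noncomputable def virtualUnknottingNumber (K : Diagram) : ℕ∞ :=
  sInf {n | ∃ (D : Diagram) (C : Finset ℕ), SameKnot K D ∧ C ⊆ D.crossings ∧
    SameKnot (D.virtualize C) unknot ∧ n = C.card}

/-- `VirtuallyUnknots K n`: the diagram `K` can be turned into a diagram of the unknot by
alternately applying finite sequences of moves and virtualizing some classical crossings; `n`
is the total number of crossings virtualized. -/
inductive VirtuallyUnknots : Diagram → ℕ → Prop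
  | done (K : Diagram) : SameKnot K unknot → VirtuallyUnknots K 0
  | step (K D : Diagram) (C : Finset ℕ) (n : ℕ) : SameKnot K D → C ⊆ D.crossings →
      VirtuallyUnknots (D.virtualize C) n → VirtuallyUnknots K (C.card + n)

/-- The virtual unknotting sequence number: the least total number of virtualizations in such
a procedure. -/
noncomputable def virtualUnknottingSequenceNumber (K : Diagram) : ℕ∞ :=
  sInf {n | ∃ m : ℕ, VirtuallyUnknots K m ∧ n = m}

end Q174.VK
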