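import Pool.Agent.Q174.VK.Basic

/-! # Gauss words, renaming, modification -/

namespace Q174.VK

open Diagram

/-- The key of a letter. -/
def key (l : Letter) : ℕ × Bool := (l.1, l.2.1)

/-- A Gauss word. -/
structure Gauss (w : List Letter) : Prop where
  nodup : (w.map key).Nodup
  mate : ∀ c o s, (c, o, s) ∈ w → (c, !o, s) ∈ w

theorem Diagram.gauss (D : Diagram) : Gauss D.word := ⟨D.nodup, D.mate⟩

/-- The diagram with a given Gauss word. -/
def Gauss.toDiagram {w : List Letter} (h : Gauss w) : Diagram := ⟨w, h.nodup, h.mate⟩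

theorem Gauss.wordNodup {w : List Letter} (h : Gauss w) : w.Nodup := h.nodup.of_map

theorem Gauss.perm {w w' : List Letter} (h : Gauss w) (hp : w.Perm w') : Gauss w' :=
  ⟨(hp.map key).nodup_iff.1 h.nodup, fun c o s hc =>
    hp.mem_iff.1 (h.mate c o s (hp.mem_iff.2 hc))⟩

theorem Gauss.append {u v : List Letter} (hu : Gauss u) (hv : Gauss v)
    (h : ∀ x ∈ u, x.1 ∉ names v) : Gauss (u ++ v) := by
  refine ⟨?_, ?_⟩
  · rw [List.map_append, List.nodup_append]
    refine ⟨hu.nodup, hv.nodup, ?_⟩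
    intro a ha b hb hab
    rw [List.mem_map] at ha hb
    obtain ⟨x, hx, rfl⟩ := ha
    obtain ⟨y, hy, rfl⟩ := hb
    exact h x hx (mem_names.2 ⟨y, hy, (congrArg Prod.fst hab).symm⟩)
  · intro c o s hc
    rw [List.mem_append] at hc ⊢
    rcases hc with hc | hc
    · exact Or.inl (hu.mate _ _ _ hc)
    · exact Or.inr (hv.mate _ _ _ hc)

theorem Gauss.filter {w : List Letter} (h : Gauss w) (p : Letter → Bool)
    (hp : ∀ l m : Letter, l.1 = m.1 → p l = p m) : Gauss (w.filter p) := by
  refine ⟨List.Nodup.sublist (List.Sublist.map _ List.filter_sublist) h.nodup, ?_⟩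
  intro c o s hc
  rw [List.mem_filter] at hc ⊢
  exact ⟨h.mate _ _ _ hc.1, (hp (c, !o, s) (c, o, s) rfl).trans hc.2⟩

theorem Gauss.of_filter {w : List Letter} (p : Letter → Bool)
    (hp : ∀ l m : Letter, l.1 = m.1 → p l = p m) (h1 : Gauss (w.filter p))
    (h2 : Gauss (w.filter (fun l => !p l))) : Gauss w := by
  have h := h1.append h2 (by
    intro x hx hx'
    obtain ⟨l, hl, hlx⟩ := mem_names.1 hx'
    rw [List.mem_filter] at hx hl
    rw [hp l x hlx] at hl
    simp [hx.2] at hl)
  exact h.perm (List.filter_append_perm p w)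

theorem gauss_two (c : ℕ) (o s : Bool) : Gauss [(c, o, s), (c, !o, s)] := by
  constructor
  · cases o <;> simp [key]
  · intro c' o' s' h
    simp only [List.mem_cons, Prod.mk.injEq, List.not_mem_nil, or_false] at h ⊢
    rcases h with ⟨rfl, rfl, rfl⟩ | ⟨rfl, rfl, rfl⟩
    · right; simp
    · left; simp

theorem gauss_four {a b : ℕ} (hab : a ≠ b) (s t : Bool) :
    Gauss [(a, true, s), (b, true, t), (a, false, s), (b, false, t)] := by
  have h := (gauss_two a true s).append (gauss_two b true t) (by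
    intro x hx hx'
    obtain ⟨l, hl, hlx⟩ := mem_names.1 hx'
    simp only [List.mem_cons, List.not_mem_nil, or_false] at hx hl
    rcases hx with rfl | rfl <;> rcases hl with rfl | rfl <;> exact hab hlx.symm)
  refine h.perm ?_
  simp only [Bool.not_true, List.cons_append, List.nil_append]
  exact (List.Perm.swap _ _ _).cons _

/-- Names determine signs: a letter of a Gauss word is determined by its key. -/
theorem Gauss.eq_of_key {w : List Letter} (h : Gauss w) {l m : Letter} (hl : l ∈ w)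
    (hm : m ∈ w) (hk : key l = key m) : l = m :=
  List.inj_on_of_nodup_map h.nodup hl hm hk

/-! ### Renaming -/

/-- Renaming a letter. -/
def ren (π : Equiv.Perm ℕ) (l : Letter) : Letter := (π l.1, l.2)

theorem ren_injective (π : Equiv.Perm ℕ) : Function.Injective (ren π) := by
  rintro ⟨a, b⟩ ⟨c, d⟩ h
  simp only [ren, Prod.mk.injEq, EmbeddingLike.apply_eq_iff_eq] at h
  rw [h.1, h.2]

/-- Renaming as a permutation of the letters. -/
def renE (π : Equiv.Perm ℕ) : Equiv.Perm Letter where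
  toFun := ren π
  invFun := ren π.symm
  left_inv l := by simp [ren]
  right_inv l := by simp [ren]

theorem ren_one (w : List Letter) : w.map (ren 1) = w := by
  have : ren 1 = id := by
    funext l
    simp [ren]
  rw [this, List.map_id]

theorem ren_ren (π ρ : Equiv.Perm ℕ) (w : List Letter) :
    (w.map (ren π)).map (ren ρ) = w.map (ren (ρ * π)) := by
  rw [List.map_map]
  rfl

theorem Gauss.ren {w : List Letter} (h : Gauss w) (π : Equiv.Perm ℕ) :
    Gauss (w.map (ren π)) := by
  constructor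
  · have h2 : (w.map (VK.ren π)).map key = (w.map key).map (fun k => (π k.1, k.2)) := by
      rw [List.map_map, List.map_map]
      rfl
    rw [h2]
    refine h.nodup.map ?_
    rintro ⟨a, b⟩ ⟨c, d⟩ h
    simp only [Prod.mk.injEq, EmbeddingLike.apply_eq_iff_eq] at h
    rw [h.1, h.2]
  · intro c o s hc
    rw [List.mem_map] at hc ⊢
    obtain ⟨⟨c', o', s'⟩, h1, h2⟩ := hc
    simp only [VK.ren, Prod.mk.injEq] at h2
    obtain ⟨rfl, rfl, rfl⟩ := h2
    exact ⟨(c', !o', s'), h.mate _ _ _ h1, rfl⟩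

theorem filter_ren (π : Equiv.Perm ℕ) (w : List Letter) (c : ℕ) :
    (w.filter (fun l => l.1 ≠ c)).map (ren π) =
      (w.map (ren π)).filter (fun l => l.1 ≠ π c) := by
  rw [List.filter_map]
  congr 1
  refine List.filter_congr fun l _ => ?_
  simp [ren]

theorem filter_ren2 (π : Equiv.Perm ℕ) (w : List Letter) (a b : ℕ) :
    (w.filter (fun l => l.1 ≠ a ∧ l.1 ≠ b)).map (ren π) =
      (w.map (ren π)).filter (fun l => l.1 ≠ π a ∧ l.1 ≠ π b) := by
  rw [List.filter_map]
  congr 1
  refine List.filter_congr fun l _ => ?_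
  simp [ren]

theorem R1.ren {w w' : List Letter} (h : R1 w w') (π : Equiv.Perm ℕ) :
    R1 (w.map (ren π)) (w'.map (ren π)) := by
  obtain ⟨c, o, s, h1, rfl⟩ := h
  exact ⟨π c, o, s, h1.map (VK.ren π), filter_ren π w c⟩

theorem R2.ren {w w' : List Letter} (h : R2 w w') (π : Equiv.Perm ℕ) :
    R2 (w.map (ren π)) (w'.map (ren π)) := by
  obtain ⟨a, b, s, hab, h1, h2, rfl⟩ := h
  refine ⟨π a, π b, s, fun h => hab (π.injective h), h1.map (VK.ren π), ?_,
    filter_ren2 π w a b⟩
  rcases h2 with h2 | h2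
  · exact Or.inl (h2.map (VK.ren π))
  · exact Or.inr (h2.map (VK.ren π))

theorem R3.ren {w w' : List Letter} (h : R3 w w') (π : Equiv.Perm ℕ) :
    R3 (w.map (ren π)) (w'.map (ren π)) := by
  obtain ⟨p, q, g, sp, sq, sg, oP, bP, bQ, h1, h2, h3, h4, h5, h6, h7, h8, rfl⟩ := h
  refine ⟨π p, π q, π g, sp, sq, sg, oP, bP, bQ, fun h => h1 (π.injective h),
    fun h => h2 (π.injective h), fun h => h3 (π.injective h), h4.map (VK.ren π), ?_, ?_, h7, h8,
    ?_⟩
  · split_ifs at h5 ⊢
    · exact h5.map (VK.ren π)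
    · exact h5.map (VK.ren π)
  · split_ifs at h6 ⊢
    · exact h6.map (VK.ren π)
    · exact h6.map (VK.ren π)
  · rw [List.map_map, List.map_map]
    refine List.map_congr_left fun l _ => ?_
    have e : ∀ x y : Letter, renE π * Equiv.swap x y =
        Equiv.swap (renE π x) (renE π y) * renE π := fun x y =>
      Equiv.mul_swap_eq_swap_mul _ _ _
    have e2 : renE π * (Equiv.swap (p, true, sp) (q, true, sq) *
        Equiv.swap (p, false, sp) (g, oP, sg) * Equiv.swap (q, false, sq) (g, !oP, sg)) =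
        (Equiv.swap (π p, true, sp) (π q, true, sq) *
        Equiv.swap (π p, false, sp) (π g, oP, sg) *
        Equiv.swap (π q, false, sq) (π g, !oP, sg)) * renE π := by
      rw [← mul_assoc, ← mul_assoc, e, mul_assoc _ (renE π) _, e, ← mul_assoc,
        mul_assoc _ (renE π) _, e, ← mul_assoc]
      rfl
    exact congrFun (congrArg DFunLike.coe e2) l

theorem Rotation.ren {w w' : List Letter} (h : Rotation w w') (π : Equiv.Perm ℕ) :
    Rotation (w.map (ren π)) (w'.map (ren π)) := by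
  obtain ⟨u, v, rfl, rfl⟩ := h
  exact ⟨u.map (VK.ren π), v.map (VK.ren π), by simp, by simp⟩

theorem Red.ren {w w' : List Letter} (h : Red w w') (π : Equiv.Perm ℕ) :
    Red (w.map (ren π)) (w'.map (ren π)) := by
  rcases h with h | h
  · exact Or.inl (h.ren π)
  · exact Or.inr (h.ren π)

/-! ### Symmetry of the third move -/

/-- Three disjoint transpositions. -/
theorem swap3 {α : Type*} [DecidableEq α] {x1 y1 x2 y2 x3 y3 : α}
    (h : [x1, y1, x2, y2, x3, y3].Nodup) (e : Equiv.Perm α)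
    (he : e = Equiv.swap x1 y1 * Equiv.swap x2 y2 * Equiv.swap x3 y3) :
    e x1 = y1 ∧ e y1 = x1 ∧ e x2 = y2 ∧ e y2 = x2 ∧ e x3 = y3 ∧ e y3 = x3 ∧
      ∀ l, l ≠ x1 → l ≠ y1 → l ≠ x2 → l ≠ y2 → l ≠ x3 → l ≠ y3 → e l = l := by
  simp only [List.nodup_cons, List.mem_cons, List.not_mem_nil, or_false, not_or,
    not_false_eq_true, List.nodup_nil, and_true] at h
  obtain ⟨⟨a1, a2, a3, a4, a5⟩, ⟨b2, b3, b4, b5⟩, ⟨c3, c4, c5⟩, ⟨d4, d5⟩, f5⟩ := h
  subst he
  refine ⟨?_, ?_, ?_, ?_, ?_, ?_, ?_⟩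
  · simp [Equiv.swap_apply_def, a4, a5, a2, a3]
  · simp [Equiv.swap_apply_def, b4, b5, b2, b3]
  · simp [Equiv.swap_apply_def, c4, c5, Ne.symm a3, Ne.symm b3]
  · simp [Equiv.swap_apply_def, d4, d5, Ne.symm a2, Ne.symm b2]
  · simp [Equiv.swap_apply_def, Ne.symm a5, Ne.symm b5, Ne.symm c5, Ne.symm d5]
  · simp [Equiv.swap_apply_def, Ne.symm a4, Ne.symm b4, Ne.symm c4, Ne.symm d4]
  · intro l h1 h2 h3 h4 h5 h6
    simp [Equiv.swap_apply_def, h1, h2, h3, h4, h5, h6]

theorem R3_nodup {p q g : ℕ} (sp sq sg oP : Bool) (h1 : p ≠ q) (h2 : p ≠ g) (h3 : q ≠ g) :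
    [(p, true, sp), (q, true, sq), (p, false, sp), (g, oP, sg), (q, false, sq),
      (g, !oP, sg)].Nodup := by
  cases oP <;>
  simp [h1, h2, h3, Ne.symm h1, Ne.symm h3]

theorem R3.symm {w w' : List Letter} (h : R3 w w') : R3 w' w := by
  obtain ⟨p, q, g, sp, sq, sg, oP, bP, bQ, h1, h2, h3, h4, h5, h6, h7, h8, h9⟩ := h
  obtain ⟨e, he⟩ : ∃ e : Equiv.Perm Letter, e = Equiv.swap (p, true, sp) (q, true, sq) *
      Equiv.swap (p, false, sp) (g, oP, sg) * Equiv.swap (q, false, sq) (g, !oP, sg) := ⟨_, rfl⟩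
  rw [← he] at h9
  obtain ⟨e1, e2, e3, e4, e5, e6, e7⟩ := swap3 (R3_nodup sp sq sg oP h1 h2 h3) e he
  have hinv : ∀ l, e (e l) = l := by
    intro l
    by_cases c1 : l = (p, true, sp)
    · rw [c1, e1, e2]
    by_cases c2 : l = (q, true, sq)
    · rw [c2, e2, e1]
    by_cases c3 : l = (p, false, sp)
    · rw [c3, e3, e4]
    by_cases c4 : l = (g, oP, sg)
    · rw [c4, e4, e3]
    by_cases c5 : l = (q, false, sq)
    · rw [c5, e5, e6]
    by_cases c6 : l = (g, !oP, sg)
    · rw [c6, e6, e5]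
    rw [e7 l c1 c2 c3 c4 c5 c6, e7 l c1 c2 c3 c4 c5 c6]
  have hw : w = w'.map e := by
    rw [h9, List.map_map]
    conv_lhs => rw [← List.map_id w]
    refine List.map_congr_left fun l _ => ?_
    exact (hinv l).symm
  refine ⟨q, p, g, sq, sp, sg, !oP, !bQ, !bP, Ne.symm h1, h3, h2, ?_, ?_, ?_, ?_, ?_, ?_⟩
  · have := h4.map e
    rw [e1, e2] at this
    rw [h9]; exact this
  · rw [h9]
    cases bQ
    · simp only [Bool.not_false, if_true]
      simp only [Bool.false_eq_true, if_false] at h6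
      have := h6.map e
      rw [e5, e6] at this
      exact this
    · simp only [Bool.not_true, Bool.false_eq_true, if_false]
      simp only [if_true] at h6
      have := h6.map e
      rw [e5, e6] at this
      exact this
  · rw [h9]
    simp only [Bool.not_not]
    cases bP
    · simp only [Bool.not_false, if_true]
      simp only [Bool.false_eq_true, if_false] at h5
      have := h5.map e
      rw [e3, e4] at this
      exact this
    · simp only [Bool.not_true, Bool.false_eq_true, if_false]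
      simp only [if_true] at h5
      have := h5.map e
      rw [e3, e4] at this
      exact this
  · rw [h7]; revert h7 h8
    cases sp <;> cases bP <;> cases bQ <;> simp
  · revert h7 h8
    cases sp <;> cases sq <;> cases sg <;> cases oP <;> cases bP <;> cases bQ <;> simp
  · rw [hw]
    refine List.map_congr_left fun l _ => ?_
    have hn := R3_nodup sq sp sg (!oP) (Ne.symm h1) h3 h2
    obtain ⟨f1, f2, f3, f4, f5, f6, f7⟩ := swap3 hn _ rfl
    rw [Bool.not_not] at f1 f2 f3 f4 f5 f6 f7 ⊢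
    by_cases c1 : l = (p, true, sp)
    · rw [c1, e1, f2]
    by_cases c2 : l = (q, true, sq)
    · rw [c2, e2, f1]
    by_cases c3 : l = (p, false, sp)
    · rw [c3, e3, f5]
    by_cases c4 : l = (g, oP, sg)
    · rw [c4, e4, f6]
    by_cases c5 : l = (q, false, sq)
    · rw [c5, e5, f3]
    by_cases c6 : l = (g, !oP, sg)
    · rw [c6, e6, f4]
    rw [e7 l c1 c2 c3 c4 c5 c6, f7 l c2 c1 c5 c6 c3 c4]

end Q174.VK
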