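import Pool.Agent.Q174.VK.Third

/-! # The main argument -/

namespace Q174.VK

open Diagram

theorem exists_four (A : Finset ℕ) : ∃ a b c d : ℕ, a ∉ A ∧ b ∉ A ∧ c ∉ A ∧ d ∉ A ∧
    [a, b, c, d].Nodup := by
  obtain ⟨M, hM⟩ : ∃ M, ∀ x ∈ A, x < M :=
    ⟨A.sup id + 1, fun x hx => Nat.lt_succ_of_le (Finset.le_sup (f := id) hx)⟩
  refine ⟨M, M + 1, M + 2, M + 3, ?_, ?_, ?_, ?_, ?_⟩
  · intro h; have := hM _ h; omega
  · intro h; have := hM _ h; omega
  · intro h; have := hM _ h; omega
  · intro h; have := hM _ h; omega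
  · simp

/-- The case of a third move. -/
theorem step_R3 {C D : Finset ℕ} {F W W1 : List Letter} (hF : Gauss F)
    (hred : RedStar (md C D F) W) (hm : R3 W W1) :
    ∃ (F' : List Letter) (ρ : Equiv.Perm ℕ), SameW F F' ∧ names F ⊆ names F' ∧
      RedStar (md C D F') (W1.map (ren ρ)) := by
  have hW : Gauss W := hred.gauss (hF.md C D)
  obtain ⟨p, q, g, sp, sq, sg, oP, bP, bQ, h1, h2, h3, h4, h5, h6, h7, h8, rfl⟩ := hm
  obtain ⟨p1, q1, p2, q2, f1, f2, f3, f4, hnd⟩ := exists_four (names F ∪ C ∪ D)
  simp only [Finset.mem_union, not_or] at f1 f2 f3 f4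
  obtain ⟨⟨f1, c1⟩, d1⟩ := f1
  obtain ⟨⟨f2, c2⟩, d2⟩ := f2
  obtain ⟨⟨f3, c3⟩, d3⟩ := f3
  obtain ⟨⟨f4, c4⟩, d4⟩ := f4
  have hWG : ∀ l ∈ W, l ∈ md C D F := fun l hl => hred.sublist.subset hl
  have hWn : names W ⊆ names F := fun c hc => by
    obtain ⟨l, hl, rfl⟩ := mem_names.1 hc
    exact names_md C D F (fst_mem_names (hWG l hl))
  have hq : (q, true, sq) ∈ W := h4.mem_right
  have hy : (g, oP, sg) ∈ W := by
    split_ifs at h5
    · exact h5.mem_right
    · exact h5.mem_left
  have hz : (g, !oP, sg) ∈ W := by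
    split_ifs at h6
    · exact h6.mem_right
    · exact h6.mem_left
  have hqD := (mem_md.1 (hWG _ hq)).2
  have hgD := (mem_md.1 (hWG _ hy)).2
  have hqF := (mem_md.1 (hWG _ hq)).1
  have hyF := (mem_md.1 (hWG _ hy)).1
  have hzF := (mem_md.1 (hWG _ hz)).1
  dsimp only at hqD hgD
  have hcl : ∀ (c : ℕ) (o s : Bool), c ∉ C → changeLetter C (c, o, s) = (c, o, s) :=
    fun c o s h => changeLetter_of_notMem h
  -- the substitution
  have hmd := md_sub3 (C := C) (D := D) (F := F) (x := (q, true, sq)) (y := (g, oP, sg))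
    (z := (g, !oP, sg)) (X := wX (q, true, sq) p1 q1 p2 q2 sp sq)
    (Y := wY bP (g, oP, sg) p1 p2 sp) (Z := wY bQ (g, !oP, sg) q1 q2 sq)
    (by
      intro m hm
      simp only [wX, List.mem_cons, List.not_mem_nil, or_false] at hm
      rcases hm with rfl | rfl | rfl | rfl | rfl <;> assumption)
    (by
      intro m hm
      unfold wY at hm
      split_ifs at hm <;>
      · simp only [List.mem_cons, List.not_mem_nil, or_false] at hm
        rcases hm with rfl | rfl | rfl <;> assumption)
    (by
      intro m hm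
      unfold wY at hm
      split_ifs at hm <;>
      · simp only [List.mem_cons, List.not_mem_nil, or_false] at hm
        rcases hm with rfl | rfl | rfl <;> assumption)
    hqD hgD hgD
  have e1 : (wX (q, true, sq) p1 q1 p2 q2 sp sq).map (changeLetter C) =
      wX (changeLetter C (q, true, sq)) p1 q1 p2 q2 sp sq := by
    simp only [wX, List.map_cons, List.map_nil, hcl _ _ _ c1, hcl _ _ _ c2, hcl _ _ _ c3,
      hcl _ _ _ c4]
  have e2 : (wY bP (g, oP, sg) p1 p2 sp).map (changeLetter C) =
      wY bP (changeLetter C (g, oP, sg)) p1 p2 sp := by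
    cases bP <;>
    simp only [wY, List.map_cons, List.map_nil, hcl _ _ _ c1, hcl _ _ _ c3, if_true,
      Bool.false_eq_true, if_false]
  have e3 : (wY bQ (g, !oP, sg) q1 q2 sq).map (changeLetter C) =
      wY bQ (changeLetter C (g, !oP, sg)) q1 q2 sq := by
    cases bQ <;>
    simp only [wY, List.map_cons, List.map_nil, hcl _ _ _ c2, hcl _ _ _ c4, if_true,
      Bool.false_eq_true, if_false]
  rw [e1, e2, e3] at hmd
  have hsame : SameW F (F.flatMap (sub3 (changeLetter C (q, true, sq))
      (changeLetter C (g, oP, sg)) (changeLetter C (g, !oP, sg))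
      (wX (changeLetter C (q, true, sq)) p1 q1 p2 q2 sp sq)
      (wY bP (changeLetter C (g, oP, sg)) p1 p2 sp)
      (wY bQ (changeLetter C (g, !oP, sg)) q1 q2 sq))) := by
    have hxg : (changeLetter C (q, true, sq)).1 ≠ g := by
      rw [changeLetter_fst]; exact h3
    by_cases hgC : g ∈ C
    · have g1 : changeLetter C (g, oP, sg) = (g, !oP, !sg) := by
        unfold changeLetter; rw [if_pos hgC]
      have g2 : changeLetter C (g, !oP, sg) = (g, !!oP, !sg) := by
        unfold changeLetter; rw [if_pos hgC]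
      rw [g1] at hyF
      rw [g2] at hzF
      rw [g1, g2]
      refine third_F hF hqF hyF hzF hxg f1 f2 f3 f4 hnd h7 ?_
      rw [← h8]
      cases sg <;> cases oP <;> rfl
    · have g1 : changeLetter C (g, oP, sg) = (g, oP, sg) := changeLetter_of_notMem hgC
      have g2 : changeLetter C (g, !oP, sg) = (g, !oP, sg) := changeLetter_of_notMem hgC
      rw [g1] at hyF
      rw [g2] at hzF
      rw [g1, g2]
      exact third_F hF hqF hyF hzF hxg f1 f2 f3 f4 hnd h7 h8
  refine ⟨_, Equiv.swap p p1 * Equiv.swap q q1, hsame, ?_, ?_⟩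
  · intro c hc
    obtain ⟨l, hl, rfl⟩ := mem_names.1 hc
    refine mem_names.2 ⟨l, List.mem_flatMap.2 ⟨l, hl, ?_⟩, rfl⟩
    unfold sub3
    split_ifs with g1 g2 g3
    · rw [g1]; simp [wX]
    · rw [g2]; unfold wY; split_ifs <;> simp
    · rw [g3]; unfold wY; split_ifs <;> simp
    · simp
  · rw [hmd]
    refine Relation.ReflTransGen.trans (RedStar.sub hred _ ?_ ?_)
      (third_W hW h1 h2 h3 h4 h5 h6 (fun h => f1 (hWn h)) (fun h => f2 (hWn h))
        (fun h => f3 (hWn h)) (fun h => f4 (hWn h)) hnd)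
    · intro l _ hl
      refine sub3_o _ _ _ ?_ ?_ ?_
      · rintro rfl; exact hl hq
      · rintro rfl; exact hl hy
      · rintro rfl; exact hl hz
    · intro l _ m hm
      have nn : ∀ c, c ∉ names F → c ∉ names (md C D F) := fun c hc h => hc (names_md C D F h)
      rcases mem_sub3 hm with ⟨rfl, hm'⟩ | ⟨rfl, hm'⟩ | ⟨rfl, hm'⟩ | ⟨rfl, _⟩
      · simp only [wX, List.mem_cons, List.not_mem_nil, or_false] at hm'
        rcases hm' with rfl | rfl | rfl | rfl | rfl
        · exact Or.inl rfl
        · exact Or.inr (nn _ f4)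
        · exact Or.inr (nn _ f3)
        · exact Or.inr (nn _ f2)
        · exact Or.inr (nn _ f1)
      · unfold wY at hm'
        split_ifs at hm'
        · simp only [List.mem_cons, List.not_mem_nil, or_false] at hm'
          rcases hm' with rfl | rfl | rfl
          · exact Or.inr (nn _ f3)
          · exact Or.inl rfl
          · exact Or.inr (nn _ f1)
        · simp only [List.mem_cons, List.not_mem_nil, or_false] at hm'
          rcases hm' with rfl | rfl | rfl
          · exact Or.inr (nn _ f1)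
          · exact Or.inl rfl
          · exact Or.inr (nn _ f3)
      · unfold wY at hm'
        split_ifs at hm'
        · simp only [List.mem_cons, List.not_mem_nil, or_false] at hm'
          rcases hm' with rfl | rfl | rfl
          · exact Or.inr (nn _ f4)
          · exact Or.inl rfl
          · exact Or.inr (nn _ f2)
        · simp only [List.mem_cons, List.not_mem_nil, or_false] at hm'
          rcases hm' with rfl | rfl | rfl
          · exact Or.inr (nn _ f2)
          · exact Or.inl rfl
          · exact Or.inr (nn _ f4)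
      · exact Or.inl rfl

/-- The case of a rotation. -/
theorem step_rotation {C D : Finset ℕ} {F W W1 : List Letter} (hF : Gauss F)
    (hred : RedStar (md C D F) W) (hm : Rotation W W1) :
    ∃ (F' : List Letter) (ρ : Equiv.Perm ℕ), SameW F F' ∧ names F ⊆ names F' ∧
      RedStar (md C D F') (W1.map (ren ρ)) := by
  obtain ⟨u, v, rfl, rfl⟩ := hm
  obtain ⟨G1, G2, hG, hred'⟩ := hred.rotate
  have hsplit : ∃ F1 F2, F = F1 ++ F2 ∧ md C D F1 = G1 ∧ md C D F2 = G2 := by
    unfold md at hG
    obtain ⟨H1, H2, e1, e2, e3⟩ := List.map_eq_append_iff.1 hG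
    obtain ⟨F1, F2, e7, e8, e9, _⟩ := exists_split e1
    refine ⟨F1, F2, e7, ?_, ?_⟩
    · unfold md; rw [e8, e2]
    · unfold md; rw [e9, e3]
  obtain ⟨F1, F2, rfl, e1, e2⟩ := hsplit
  have hF' : Gauss (F2 ++ F1) := hF.perm List.perm_append_comm
  refine ⟨F2 ++ F1, 1, WMove.same (Or.inr (Or.inr (Or.inr (Or.inl ⟨F1, F2, rfl, rfl⟩)))) hF hF',
    ?_, ?_⟩
  · intro x hx
    rw [names_append] at hx ⊢
    rw [Finset.union_comm]; exact hx
  · rw [ren_one, md_append, e1, e2]
    exact hred'

theorem ren_inv (π : Equiv.Perm ℕ) (w : List Letter) :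
    (w.map (ren π)).map (ren π⁻¹) = w := by
  rw [ren_ren, inv_mul_cancel, ren_one]

/-- One move. -/
theorem step {C D : Finset ℕ} {F W W1 : List Letter} (hF : Gauss F) (hW1 : Gauss W1)
    (hred : RedStar (md C D F) W) (hm : WMove W W1 ∨ WMove W1 W) :
    ∃ (F' : List Letter) (ρ : Equiv.Perm ℕ), SameW F F' ∧ names F ⊆ names F' ∧
      RedStar (md C D F') (W1.map (ren ρ)) := by
  rcases hm with (h | h | h | h | ⟨π, h⟩) | (h | h | h | ⟨u, v, h1, h2⟩ | ⟨π, h⟩)
  · refine ⟨F, 1, SameW.rfl' hF, fun _ h => h, ?_⟩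
    rw [ren_one]
    exact Relation.ReflTransGen.tail hred (Or.inl h)
  · refine ⟨F, 1, SameW.rfl' hF, fun _ h => h, ?_⟩
    rw [ren_one]
    exact Relation.ReflTransGen.tail hred (Or.inr h)
  · exact step_R3 hF hred h
  · exact step_rotation hF hred h
  · refine ⟨F, π⁻¹, SameW.rfl' hF, fun _ h => h, ?_⟩
    have : W1.map (ren π⁻¹) = W := by
      rw [h]; exact ren_inv π W
    rw [this]; exact hred
  · exact step_R1_up hF hW1 hred h
  · exact step_R2_up hF hW1 hred h
  · exact step_R3 hF hred h.symm
  · exact step_rotation hF hred ⟨v, u, h2, h1⟩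
  · refine ⟨F, π, SameW.rfl' hF, fun _ h => h, ?_⟩
    have : W1.map (ren π) = W := h.symm
    rw [this]; exact hred

/-- Following a virtual isotopy. -/
def Follow (D E : Diagram) : Prop :=
  ∀ (C S : Finset ℕ) (F : List Letter) (π : Equiv.Perm ℕ), Gauss F →
    RedStar (md C S F) (D.word.map (ren π)) →
    ∃ (F' : List Letter) (ρ : Equiv.Perm ℕ), SameW F F' ∧ names F ⊆ names F' ∧
      RedStar (md C S F') (E.word.map (ren ρ))

theorem follow {D E : Diagram} (h : SameKnot D E) : Follow D E ∧ Follow E D := by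
  induction h with
  | rel D E h =>
    constructor
    · intro C S F π hF hred
      obtain ⟨F', ρ, h1, h2, h3⟩ := step hF (E.gauss.ren π) hred (Or.inl (WMove.ren h π))
      refine ⟨F', ρ * π, h1, h2, ?_⟩
      rwa [ren_ren] at h3
    · intro C S F π hF hred
      obtain ⟨F', ρ, h1, h2, h3⟩ := step hF (D.gauss.ren π) hred (Or.inr (WMove.ren h π))
      refine ⟨F', ρ * π, h1, h2, ?_⟩
      rwa [ren_ren] at h3
  | refl D =>
    constructor <;>
    · intro C S F π hF hred
      exact ⟨F, π, SameW.rfl' hF, fun _ h => h, hred⟩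
  | symm D E _ ih => exact ⟨ih.2, ih.1⟩
  | trans D E K _ _ ih1 ih2 =>
    constructor
    · intro C S F π hF hred
      obtain ⟨F', ρ, h1, h2, h3⟩ := ih1.1 C S F π hF hred
      obtain ⟨F'', ρ', h4, h5, h6⟩ := ih2.1 C S F' ρ h1.2.1 h3
      exact ⟨F'', ρ', h1.trans h4, h2.trans h5, h6⟩
    · intro C S F π hF hred
      obtain ⟨F', ρ, h1, h2, h3⟩ := ih2.2 C S F π hF hred
      obtain ⟨F'', ρ', h4, h5, h6⟩ := ih1.2 C S F' ρ h1.2.1 h3
      exact ⟨F'', ρ', h1.trans h4, h2.trans h5, h6⟩

/-! ### Crossing changes and virtualizations of the kept crossings -/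

theorem RedStar.exists_filter {G E : List Letter} (h : RedStar G E) :
    ∃ S : Finset ℕ, E = G.filter (fun l => l.1 ∉ S) := by
  induction h with
  | refl => exact ⟨∅, by simp⟩
  | @tail E E' _ h ih =>
    obtain ⟨S, rfl⟩ := ih
    rcases h with ⟨c, o, s, _, rfl⟩ | ⟨a, b, s, _, _, _, rfl⟩
    · refine ⟨S ∪ {c}, ?_⟩
      rw [List.filter_filter]
      refine List.filter_congr fun l _ => ?_
      by_cases h1 : l.1 = c <;> by_cases h2 : l.1 ∈ S <;> simp [h1, h2]
    · refine ⟨S ∪ {a} ∪ {b}, ?_⟩
      rw [List.filter_filter]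
      refine List.filter_congr fun l _ => ?_
      by_cases h1 : l.1 = a <;> by_cases h2 : l.1 ∈ S <;> by_cases h3 : l.1 = b <;>
        simp [h1, h2, h3]

theorem RedStar.notMem {G E : List Letter} (h : RedStar G E) {l : Letter} (hl : l ∈ G)
    (hl' : l ∉ E) : l.1 ∉ names E := by
  obtain ⟨S, rfl⟩ := h.exists_filter
  intro hn
  obtain ⟨m, hm, hml⟩ := mem_names.1 hn
  rw [List.mem_filter] at hm hl'
  apply hl'
  refine ⟨hl, ?_⟩
  rw [← hml]; exact hm.2

theorem RedStar.change {G E : List Letter} (h : RedStar G E) {A : Finset ℕ}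
    (hA : A ⊆ names E) : RedStar (G.map (changeLetter A)) (E.map (changeLetter A)) := by
  have := h.sub (fun m => [changeLetter A m]) ?_ ?_
  · rw [List.map_eq_flatMap, List.map_eq_flatMap]
    exact this
  · intro l hl hl'
    rw [changeLetter_of_notMem fun hA' => h.notMem hl hl' (hA hA')]
  · intro l _ m hm
    rw [List.mem_singleton] at hm
    left
    rw [hm, changeLetter_fst]

theorem filter_eq_flatMap (w : List Letter) (A : Finset ℕ) :
    w.filter (fun l => l.1 ∉ A) = w.flatMap (fun l => if l.1 ∈ A then [] else [l]) := by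
  induction w with
  | nil => rfl
  | cons a w ih =>
    rw [List.filter_cons, List.flatMap_cons, ih]
    by_cases h : a.1 ∈ A
    · simp [h]
    · simp [h]

theorem RedStar.virtualize {G E : List Letter} (h : RedStar G E) {A : Finset ℕ}
    (hA : A ⊆ names E) :
    RedStar (G.filter (fun l => l.1 ∉ A)) (E.filter (fun l => l.1 ∉ A)) := by
  rw [filter_eq_flatMap, filter_eq_flatMap]
  refine h.sub _ ?_ ?_
  · intro l hl hl'
    rw [if_neg fun hA' => h.notMem hl hl' (hA hA')]
  · intro l _ m hm
    split_ifs at hm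
    · simp at hm
    · rw [List.mem_singleton] at hm
      left
      rw [hm]

theorem changeLetter_symmDiff (C A : Finset ℕ) (l : Letter) :
    changeLetter A (changeLetter C l) = changeLetter (symmDiff C A) l := by
  unfold changeLetter
  by_cases h1 : l.1 ∈ C <;> by_cases h2 : l.1 ∈ A <;> simp [h1, h2, Finset.mem_symmDiff]

theorem md_change (C A : Finset ℕ) (F : List Letter) :
    (md C ∅ F).map (changeLetter A) = md (symmDiff C A) ∅ F := by
  unfold md
  rw [List.map_map]
  exact List.map_congr_left fun l _ => changeLetter_symmDiff C A l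

theorem md_virtualize (S A : Finset ℕ) (F : List Letter) :
    (md ∅ S F).filter (fun l => l.1 ∉ A) = md ∅ (S ∪ A) F := by
  have h : ∀ w : List Letter, w.map (changeLetter ∅) = w := by
    intro w
    conv_rhs => rw [← List.map_id w]
    exact List.map_congr_left fun l _ => changeLetter_of_notMem (by simp)
  unfold md
  rw [h, h, List.filter_filter]
  refine List.filter_congr fun l _ => ?_
  by_cases h1 : l.1 ∈ A <;> by_cases h2 : l.1 ∈ S <;> simp [h1, h2]

theorem ren_change (ρ : Equiv.Perm ℕ) (A : Finset ℕ) (w : List Letter) :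
    (w.map (ren ρ)).map (changeLetter (A.image ρ)) = (w.map (changeLetter A)).map (ren ρ) := by
  rw [List.map_map, List.map_map]
  refine List.map_congr_left fun l _ => ?_
  simp only [Function.comp_apply, changeLetter, ren]
  by_cases h : l.1 ∈ A <;> simp [h]

theorem ren_virtualize (ρ : Equiv.Perm ℕ) (A : Finset ℕ) (w : List Letter) :
    (w.map (ren ρ)).filter (fun l => l.1 ∉ A.image ρ) =
      (w.filter (fun l => l.1 ∉ A)).map (ren ρ) := by
  rw [List.filter_map]
  congr 1
  refine List.filter_congr fun l _ => ?_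
  simp [ren]

theorem sameKnot_iff (D E : Diagram) : SameKnot D E ↔ SameW D.word E.word := by
  constructor
  · intro h
    exact ⟨D.gauss, E.gauss, h⟩
  · rintro ⟨_, _, h⟩
    exact h

theorem names_ren (ρ : Equiv.Perm ℕ) (w : List Letter) :
    names (w.map (ren ρ)) = (names w).image ρ := by
  ext c
  rw [mem_names, Finset.mem_image]
  constructor
  · rintro ⟨l, hl, rfl⟩
    rw [List.mem_map] at hl
    obtain ⟨m, hm, rfl⟩ := hl
    exact ⟨m.1, fst_mem_names hm, rfl⟩
  · rintro ⟨x, hx, rfl⟩
    obtain ⟨m, hm, rfl⟩ := mem_names.1 hx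
    exact ⟨ren ρ m, List.mem_map_of_mem hm, rfl⟩

theorem unknots_aux {K : Diagram} {n : ℕ} (h : Unknots K n) :
    ∀ (C : Finset ℕ) (F : List Letter) (π : Equiv.Perm ℕ), Gauss F → C ⊆ names F →
      RedStar (md C ∅ F) (K.word.map (ren π)) →
      ∃ (F' : List Letter) (C' : Finset ℕ), SameW F F' ∧ C' ⊆ names F' ∧
        SameW (md C' ∅ F') [] ∧ C'.card ≤ C.card + n := by
  induction h with
  | done K hK =>
    intro C F π hF hC hred
    obtain ⟨F', ρ, h1, h2, h3⟩ := (follow hK).1 C ∅ F π hF hred
    exact ⟨F', C, h1, hC.trans h2, RedStar.same h3 (h1.2.1.md C ∅), le_refl _⟩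
  | step K D A n hK hA _ ih =>
    intro C F π hF hC hred
    obtain ⟨F', ρ, h1, h2, h3⟩ := (follow hK).1 C ∅ F π hF hred
    have hA' : A.image ρ ⊆ names (D.word.map (ren ρ)) := by
      rw [names_ren]
      exact Finset.image_subset_image hA
    have h4 := RedStar.change h3 hA'
    rw [md_change, ren_change] at h4
    have hsub : names (D.word.map (ren ρ)) ⊆ names F' := by
      intro c hc
      obtain ⟨l, hl, rfl⟩ := mem_names.1 hc
      exact names_md C ∅ F' (fst_mem_names (h3.sublist.subset hl))
    obtain ⟨F'', C'', h5, h6, h7, h8⟩ := ih (symmDiff C (A.image ρ)) F' ρ h1.2.1 (by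
      intro c hc
      rw [Finset.mem_symmDiff] at hc
      rcases hc with hc | hc
      · exact h2 (hC hc.1)
      · exact hsub (hA' hc.1)) h4
    refine ⟨F'', C'', h1.trans h5, h6, h7, h8.trans ?_⟩
    have h9 : (symmDiff C (A.image ρ)).card ≤ C.card + A.card := by
      refine (Finset.card_le_card (t := C ∪ A.image ρ) ?_).trans
        ((Finset.card_union_le _ _).trans (Nat.add_le_add_left Finset.card_image_le _))
      intro c hc
      rw [Finset.mem_symmDiff] at hc
      rw [Finset.mem_union]
      rcases hc with hc | hc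
      · exact Or.inl hc.1
      · exact Or.inr hc.1
    omega

theorem virtuallyUnknots_aux {K : Diagram} {n : ℕ} (h : VirtuallyUnknots K n) :
    ∀ (C : Finset ℕ) (F : List Letter) (π : Equiv.Perm ℕ), Gauss F → C ⊆ names F →
      RedStar (md ∅ C F) (K.word.map (ren π)) →
      ∃ (F' : List Letter) (C' : Finset ℕ), SameW F F' ∧ C' ⊆ names F' ∧
        SameW (md ∅ C' F') [] ∧ C'.card ≤ C.card + n := by
  induction h with
  | done K hK =>
    intro C F π hF hC hred
    obtain ⟨F', ρ, h1, h2, h3⟩ := (follow hK).1 ∅ C F π hF hred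
    exact ⟨F', C, h1, hC.trans h2, RedStar.same h3 (h1.2.1.md ∅ C), le_refl _⟩
  | step K D A n hK hA _ ih =>
    intro C F π hF hC hred
    obtain ⟨F', ρ, h1, h2, h3⟩ := (follow hK).1 ∅ C F π hF hred
    have hA' : A.image ρ ⊆ names (D.word.map (ren ρ)) := by
      rw [names_ren]
      exact Finset.image_subset_image hA
    have h4 := RedStar.virtualize h3 hA'
    rw [md_virtualize, ren_virtualize] at h4
    have hsub : names (D.word.map (ren ρ)) ⊆ names F' := by
      intro c hc
      obtain ⟨l, hl, rfl⟩ := mem_names.1 hc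
      exact names_md ∅ C F' (fst_mem_names (h3.sublist.subset hl))
    obtain ⟨F'', C'', h5, h6, h7, h8⟩ := ih (C ∪ A.image ρ) F' ρ h1.2.1 (by
      intro c hc
      rw [Finset.mem_union] at hc
      rcases hc with hc | hc
      · exact h2 (hC hc)
      · exact hsub (hA' hc)) h4
    refine ⟨F'', C'', h1.trans h5, h6, h7, h8.trans ?_⟩
    have h9 : (C ∪ A.image ρ).card ≤ C.card + A.card :=
      (Finset.card_union_le _ _).trans (Nat.add_le_add_left Finset.card_image_le _)
    omega

/-- The unknotting number equals the unknotting sequence number. -/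
theorem unknottingNumber_eq (K : Diagram) :
    unknottingNumber K = unknottingSequenceNumber K := by
  apply le_antisymm
  · refine le_sInf ?_
    rintro _ ⟨m, hm, rfl⟩
    obtain ⟨F', C', h1, h2, h3, h4⟩ := unknots_aux hm ∅ K.word 1 K.gauss (by simp) (by
      rw [ren_one, md_of_fresh (by simp)]
      exact Relation.ReflTransGen.refl)
    have h5 : unknottingNumber K ≤ (C'.card : ℕ∞) := by
      refine sInf_le ⟨h1.2.1.toDiagram, C', (sameKnot_iff _ _).2 h1, h2,
        (sameKnot_iff _ _).2 ?_, rfl⟩
      have : (h1.2.1.toDiagram.change C').word = md C' ∅ F' := by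
        simp [md, change, Gauss.toDiagram]
      rw [this]
      exact h3
    refine h5.trans ?_
    rw [Finset.card_empty, zero_add] at h4
    exact_mod_cast h4
  · refine le_sInf ?_
    rintro _ ⟨D, C, h1, h2, h3, rfl⟩
    exact sInf_le ⟨C.card + 0, Unknots.step K D C 0 h1 h2 (Unknots.done _ h3), by simp⟩

/-- The virtual unknotting number equals the virtual unknotting sequence number. -/
theorem virtualUnknottingNumber_eq (K : Diagram) :
    virtualUnknottingNumber K = virtualUnknottingSequenceNumber K := by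
  apply le_antisymm
  · refine le_sInf ?_
    rintro _ ⟨m, hm, rfl⟩
    obtain ⟨F', C', h1, h2, h3, h4⟩ := virtuallyUnknots_aux hm ∅ K.word 1 K.gauss (by simp) (by
      rw [ren_one, md_of_fresh (by simp)]
      exact Relation.ReflTransGen.refl)
    have h5 : virtualUnknottingNumber K ≤ (C'.card : ℕ∞) := by
      refine sInf_le ⟨h1.2.1.toDiagram, C', (sameKnot_iff _ _).2 h1, h2,
        (sameKnot_iff _ _).2 ?_, rfl⟩
      have : (h1.2.1.toDiagram.virtualize C').word = md ∅ C' F' := by
        have h : ∀ w : List Letter, w.map (changeLetter ∅) = w := by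
          intro w
          conv_rhs => rw [← List.map_id w]
          exact List.map_congr_left fun l _ => changeLetter_of_notMem (by simp)
        unfold md
        rw [h]
        rfl
      rw [this]
      exact h3
    refine h5.trans ?_
    rw [Finset.card_empty, zero_add] at h4
    exact_mod_cast h4
  · refine le_sInf ?_
    rintro _ ⟨D, C, h1, h2, h3, rfl⟩
    exact sInf_le ⟨C.card + 0, VirtuallyUnknots.step K D C 0 h1 h2 (VirtuallyUnknots.done _ h3),
      by simp⟩

end Q174.VK
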