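import Pool.Agent.Q174.VK.Up

/-! # The third move -/

namespace Q174.VK

open Diagram

/-- Substituting words for three letters. -/
def sub3 (x y z : Letter) (X Y Z : List Letter) (m : Letter) : List Letter :=
  if m = x then X else if m = y then Y else if m = z then Z else [m]

theorem sub3_x (x y z : Letter) (X Y Z : List Letter) : sub3 x y z X Y Z x = X := by
  simp [sub3]

theorem sub3_y {x y : Letter} (z : Letter) (X Y Z : List Letter) (h : y ≠ x) :
    sub3 x y z X Y Z y = Y := by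
  simp [sub3, h]

theorem sub3_z {x y z : Letter} (X Y Z : List Letter) (h : z ≠ x) (h' : z ≠ y) :
    sub3 x y z X Y Z z = Z := by
  simp [sub3, h, h']

theorem sub3_o {x y z m : Letter} (X Y Z : List Letter) (h : m ≠ x) (h' : m ≠ y)
    (h'' : m ≠ z) : sub3 x y z X Y Z m = [m] := by
  simp [sub3, h, h', h'']

theorem mem_sub3 {x y z m l : Letter} {X Y Z : List Letter} (h : l ∈ sub3 x y z X Y Z m) :
    (m = x ∧ l ∈ X) ∨ (m = y ∧ l ∈ Y) ∨ (m = z ∧ l ∈ Z) ∨
      (l = m ∧ m ≠ x ∧ m ≠ y ∧ m ≠ z) := by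
  unfold sub3 at h
  split_ifs at h with h1 h2 h3
  · exact Or.inl ⟨h1, h⟩
  · exact Or.inr (Or.inl ⟨h2, h⟩)
  · exact Or.inr (Or.inr (Or.inl ⟨h3, h⟩))
  · exact Or.inr (Or.inr (Or.inr ⟨by simpa using h, h1, h2, h3⟩))

/-- Modification and substitution. -/
theorem md_sub3 {C D : Finset ℕ} {F : List Letter} {x y z : Letter} {X Y Z : List Letter}
    (hx : ∀ m ∈ X, m.1 ∉ D) (hy : ∀ m ∈ Y, m.1 ∉ D) (hz : ∀ m ∈ Z, m.1 ∉ D)
    (hx' : x.1 ∉ D) (hy' : y.1 ∉ D) (hz' : z.1 ∉ D) :
    md C D (F.flatMap (sub3 (changeLetter C x) (changeLetter C y) (changeLetter C z)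
      (X.map (changeLetter C)) (Y.map (changeLetter C)) (Z.map (changeLetter C)))) =
      (md C D F).flatMap (sub3 x y z X Y Z) := by
  have e0 : ∀ m : Letter, sub3 (changeLetter C x) (changeLetter C y) (changeLetter C z)
      (X.map (changeLetter C)) (Y.map (changeLetter C)) (Z.map (changeLetter C)) m =
      (sub3 x y z X Y Z (changeLetter C m)).map (changeLetter C) := by
    intro m
    have e : ∀ x : Letter, changeLetter C m = x ↔ m = changeLetter C x := by
      intro x
      constructor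
      · rintro rfl; rw [changeLetter_changeLetter]
      · rintro rfl; rw [changeLetter_changeLetter]
    simp only [sub3, e]
    split_ifs
    · rfl
    · rfl
    · rfl
    · simp [changeLetter_changeLetter]
  have e1 : (F.flatMap (sub3 (changeLetter C x) (changeLetter C y) (changeLetter C z)
      (X.map (changeLetter C)) (Y.map (changeLetter C)) (Z.map (changeLetter C)))).filter
      (fun l => l.1 ∉ D) = (F.filter (fun l => l.1 ∉ D)).flatMap (sub3 (changeLetter C x)
        (changeLetter C y) (changeLetter C z) (X.map (changeLetter C)) (Y.map (changeLetter C))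
        (Z.map (changeLetter C))) := by
    refine filter_flatMap fun l hl => ?_
    have hc : ∀ {w : List Letter}, (∀ m ∈ w, m.1 ∉ D) →
        (w.map (changeLetter C)).filter (fun l => l.1 ∉ D) = w.map (changeLetter C) := by
      intro w hw
      refine List.filter_eq_self.2 fun m hm => ?_
      rw [List.mem_map] at hm
      obtain ⟨m', hm', rfl⟩ := hm
      rw [changeLetter_fst]
      simpa using hw m' hm'
    unfold sub3
    split_ifs with h1 h2 h3 h4 h5 h6 h7
    · exact hc hx
    · exfalso; rw [h1, changeLetter_fst] at h2; simp [hx'] at h2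
    · exact hc hy
    · exfalso; rw [h3, changeLetter_fst] at h4; simp [hy'] at h4
    · exact hc hz
    · exfalso; rw [h5, changeLetter_fst] at h6; simp [hz'] at h6
    · simpa using h7
    · simpa using h7
  unfold md
  rw [e1, List.map_flatMap, List.flatMap_map]
  refine List.flatMap_congr fun m _ => ?_
  rw [e0, List.map_map]
  conv_rhs => rw [← List.map_id (sub3 x y z X Y Z (changeLetter C m))]
  refine List.map_congr_left fun l _ => ?_
  exact changeLetter_changeLetter C l

/-- Permutation of the word of inserted letters. -/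
theorem perm_three {w : List Letter} (hw : w.Nodup) {x y z : Letter} (hx : x ∈ w) (hy : y ∈ w)
    (hz : z ∈ w) (h1 : x ≠ y) (h2 : x ≠ z) (h3 : y ≠ z) (f : Letter → List Letter)
    (hf : ∀ m ∈ w, m ≠ x → m ≠ y → m ≠ z → f m = []) :
    (w.flatMap f).Perm (f x ++ (f y ++ f z)) := by
  have hy2 : y ∈ w.erase x := (hw.mem_erase_iff).2 ⟨Ne.symm h1, hy⟩
  have hz2 : z ∈ (w.erase x).erase y :=
    ((hw.erase x).mem_erase_iff).2 ⟨Ne.symm h3, (hw.mem_erase_iff).2 ⟨Ne.symm h2, hz⟩⟩
  have p1 := (List.perm_cons_erase hx).flatMap_right f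
  have p2 := (List.perm_cons_erase hy2).flatMap_right f
  have p3 := (List.perm_cons_erase hz2).flatMap_right f
  have p4 : (((w.erase x).erase y).erase z).flatMap f = [] := by
    rw [List.flatMap_eq_nil_iff]
    intro m hm
    have g1 := (((hw.erase x).erase y).mem_erase_iff).1 hm
    have g2 := ((hw.erase x).mem_erase_iff).1 g1.2
    have g3 := (hw.mem_erase_iff).1 g2.2
    exact hf m g3.2 g3.1 g2.1 g1.1
  rw [List.flatMap_cons] at p1 p2 p3
  rw [p4, List.append_nil] at p3
  exact p1.trans (List.Perm.append_left _ (p2.trans (List.Perm.append_left _ p3)))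

/-- Three disjoint pairs of neighbours. -/
theorem three_replace {w : List Letter} (hw : w.Nodup) {x1 y1 x2 y2 x3 y3 : Letter}
    (a1 : Adj w x1 y1) (a2 : Adj w x2 y2) (a3 : Adj w x3 y3)
    (hd : [x1, y1, x2, y2, x3, y3].Nodup) {f g : Letter → List Letter}
    (ho : ∀ m ∈ w, m ≠ x1 → m ≠ y1 → m ≠ x2 → m ≠ y2 → m ≠ x3 → m ≠ y3 → f m = g m)
    (h1 : f x1 ++ f y1 = g x1 ++ g y1) (h2 : f x2 ++ f y2 = g x2 ++ g y2)
    (h3 : f x3 ++ f y3 = g x3 ++ g y3) : w.flatMap f = w.flatMap g := by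
  simp only [List.nodup_cons, List.mem_cons, List.not_mem_nil, or_false, not_or,
    not_false_eq_true, List.nodup_nil, and_true] at hd
  obtain ⟨⟨b1, b2, b3, b4, b5⟩, ⟨c2, c3, c4, c5⟩, ⟨d3, d4, d5⟩, ⟨e4, e5⟩, f5⟩ := hd
  have s1 : w.flatMap f = w.flatMap (fun m => if m = x1 ∨ m = y1 then g m else f m) := by
    refine pair_replace hw a1 ?_ ?_
    · intro m hm hm'; simp [hm, hm']
    · simpa using h1
  have s2 : w.flatMap (fun m => if m = x1 ∨ m = y1 then g m else f m) =
      w.flatMap (fun m => if m = x2 ∨ m = y2 then g m else if m = x1 ∨ m = y1 then g m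
        else f m) := by
    refine pair_replace hw a2 ?_ ?_
    · intro m hm hm'; simp [hm, hm']
    · simp [Ne.symm b2, Ne.symm b3, Ne.symm c2, Ne.symm c3, h2]
  have s3 : w.flatMap (fun m => if m = x2 ∨ m = y2 then g m else if m = x1 ∨ m = y1 then g m
        else f m) = w.flatMap (fun m => if m = x3 ∨ m = y3 then g m else
          if m = x2 ∨ m = y2 then g m else if m = x1 ∨ m = y1 then g m else f m) := by
    refine pair_replace hw a3 ?_ ?_
    · intro m hm hm'; simp [hm, hm']
    · simp [Ne.symm b4, Ne.symm b5, Ne.symm c4, Ne.symm c5, Ne.symm d4, Ne.symm d5,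
        Ne.symm e4, Ne.symm e5, h3]
  rw [s1, s2, s3]
  refine List.flatMap_congr fun m hm => ?_
  by_cases g1 : m = x1 <;> by_cases g2 : m = y1 <;> by_cases g3 : m = x2 <;>
    by_cases g4 : m = y2 <;> by_cases g5 : m = x3 <;> by_cases g6 : m = y3 <;>
    simp [g1, g2, g3, g4, g5, g6, ho m hm]

/-- The words substituted for the two letters of the crossing `g`. -/
def wY (b : Bool) (y : Letter) (c c' : ℕ) (s : Bool) : List Letter :=
  if b then [(c', false, !s), y, (c, false, s)] else [(c, false, s), y, (c', false, !s)]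

/-- The words substituted for the two letters of the crossing `g`, before the third move. -/
def vY (b : Bool) (y : Letter) (c c' : ℕ) (s : Bool) : List Letter :=
  if b then [y, (c', false, !s), (c, false, s)] else [(c, false, s), (c', false, !s), y]

theorem wY_perm (b : Bool) (y : Letter) (c c' : ℕ) (s : Bool) :
    (vY b y c c' s).Perm (wY b y c c' s) := by
  unfold vY wY
  cases b
  · simp only [Bool.false_eq_true, if_false]
    exact (List.Perm.swap _ _ _).cons _
  · simp only [if_true]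
    exact List.Perm.swap _ _ _

/-- The first word. -/
def vX (x : Letter) (p1 q1 p2 q2 : ℕ) (sp sq : Bool) : List Letter :=
  [x, (p2, true, !sp), (q2, true, !sq), (q1, true, sq), (p1, true, sp)]

/-- The first word after the third move. -/
def wX (x : Letter) (p1 q1 p2 q2 : ℕ) (sp sq : Bool) : List Letter :=
  [x, (q2, true, !sq), (p2, true, !sp), (q1, true, sq), (p1, true, sp)]

theorem wX_perm (x : Letter) (p1 q1 p2 q2 : ℕ) (sp sq : Bool) :
    (vX x p1 q1 p2 q2 sp sq).Perm (wX x p1 q1 p2 q2 sp sq) :=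
  (List.Perm.swap _ _ _).cons _

theorem gauss_eight {p1 q1 p2 q2 : ℕ} (hnd : [p1, q1, p2, q2].Nodup) (a b c d : Bool) :
    Gauss [(p2, true, c), (q2, true, d), (q1, true, b), (p1, true, a), (p2, false, c),
      (p1, false, a), (q2, false, d), (q1, false, b)] := by
  simp only [List.nodup_cons, List.mem_cons, List.not_mem_nil, or_false, not_or,
    not_false_eq_true, List.nodup_nil, and_true] at hnd
  obtain ⟨⟨h1, h2, h3⟩, ⟨h4, h5⟩, h6⟩ := hnd
  constructor
  · simp [key, h1, h2, h3, h4, h5, h6, Ne.symm h1, Ne.symm h2, Ne.symm h3, Ne.symm h4,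
      Ne.symm h5, Ne.symm h6]
  · intro c' o' s' h
    simp only [List.mem_cons, Prod.mk.injEq, List.not_mem_nil, or_false] at h ⊢
    rcases h with h | h | h | h | h | h | h | h <;> obtain ⟨rfl, rfl, rfl⟩ := h <;> simp

/-- The third move between the words with the inserted crossings. -/
theorem third_F {F : List Letter} (hF : Gauss F) {x : Letter} {g p1 q1 p2 q2 : ℕ}
    {sp sq sg oP bP bQ : Bool} (hx : x ∈ F) (hy : (g, oP, sg) ∈ F) (hz : (g, !oP, sg) ∈ F)
    (hxg : x.1 ≠ g) (f1 : p1 ∉ names F) (f2 : q1 ∉ names F) (f3 : p2 ∉ names F)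
    (f4 : q2 ∉ names F) (hnd : [p1, q1, p2, q2].Nodup) (h7 : sq = (sp == (bP == bQ)))
    (h8 : (sg == oP) = (bQ == sp)) :
    SameW F (F.flatMap (sub3 x (g, oP, sg) (g, !oP, sg) (wX x p1 q1 p2 q2 sp sq)
      (wY bP (g, oP, sg) p1 p2 sp) (wY bQ (g, !oP, sg) q1 q2 sq))) := by
  have hnd' := hnd
  simp only [List.nodup_cons, List.mem_cons, List.not_mem_nil, or_false, not_or,
    not_false_eq_true, List.nodup_nil, and_true] at hnd'
  obtain ⟨⟨n1, n2, n3⟩, ⟨n4, n5⟩, n6⟩ := hnd'
  have hm : ∀ m ∈ F, m.1 ≠ p1 ∧ m.1 ≠ q1 ∧ m.1 ≠ p2 ∧ m.1 ≠ q2 := by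
    intro m hm
    have := fst_mem_names hm
    refine ⟨?_, ?_, ?_, ?_⟩ <;> rintro rfl <;> contradiction
  obtain ⟨mx1, mx2, mx3, mx4⟩ := hm x hx
  obtain ⟨my1, my2, my3, my4⟩ := hm _ hy
  dsimp only at my1 my2 my3 my4
  have hxy : x ≠ (g, oP, sg) := fun h => hxg (by rw [h])
  have hxz : x ≠ (g, !oP, sg) := fun h => hxg (by rw [h])
  have hyz : ((g, oP, sg) : Letter) ≠ (g, !oP, sg) := by cases oP <;> simp
  obtain ⟨σ, hσ⟩ : ∃ σ, σ = sub3 x (g, oP, sg) (g, !oP, sg) (vX x p1 q1 p2 q2 sp sq)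
    (vY bP (g, oP, sg) p1 p2 sp) (vY bQ (g, !oP, sg) q1 q2 sq) := ⟨_, rfl⟩
  have σx : σ x = vX x p1 q1 p2 q2 sp sq := by rw [hσ, sub3_x]
  have σy : σ (g, oP, sg) = vY bP (g, oP, sg) p1 p2 sp := by
    rw [hσ, sub3_y _ _ _ _ (Ne.symm hxy)]
  have σz : σ (g, !oP, sg) = vY bQ (g, !oP, sg) q1 q2 sq := by
    rw [hσ, sub3_z _ _ _ (Ne.symm hxz) (Ne.symm hyz)]
  have σo : ∀ m, m ≠ x → m ≠ (g, oP, sg) → m ≠ (g, !oP, sg) → σ m = [m] := by
    intro m h h' h''
    rw [hσ, sub3_o _ _ _ h h' h'']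
  -- removing the new crossings
  have fil : ∀ p : Letter → Bool, (∀ m ∈ F, p m = true) →
      (∀ o s, p (p1, o, s) = false) → (∀ o s, p (q1, o, s) = false) →
      (∀ o s, p (p2, o, s) = false) → (∀ o s, p (q2, o, s) = false) →
      (F.flatMap σ).filter p = F := by
    intro p g0 g1 g2 g3 g4
    rw [List.filter_flatMap]
    have : F.flatMap (fun a => (σ a).filter p) = F.flatMap (fun a => [a]) := by
      refine List.flatMap_congr fun m hmF => ?_
      by_cases c1 : m = x
      · subst c1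
        rw [σx]
        simp [vX, g0 m hmF, g1, g2, g3, g4]
      by_cases c2 : m = (g, oP, sg)
      · subst c2
        rw [σy]
        cases bP <;> simp [vY, g0 _ hmF, g1, g3]
      by_cases c3 : m = (g, !oP, sg)
      · subst c3
        rw [σz]
        cases bQ <;> simp [vY, g0 _ hmF, g2, g4]
      rw [σo m c1 c2 c3]
      simp [g0 m hmF]
    rw [this]
    simp
  -- the word with all new crossings
  have hG : Gauss (F.flatMap σ) := by
    refine Gauss.of_filter (fun l => l.1 ≠ p1 ∧ l.1 ≠ q1 ∧ l.1 ≠ p2 ∧ l.1 ≠ q2) ?_ ?_ ?_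
    · intro l m h; simp [h]
    · rw [fil]
      · exact hF
      · intro m hmF
        simpa using hm m hmF
      · simp
      · simp
      · simp
      · simp
    · rw [List.filter_flatMap]
      have pp := perm_three hF.wordNodup hx hy hz hxy hxz hyz (fun a => (σ a).filter
        (fun l => !decide (l.1 ≠ p1 ∧ l.1 ≠ q1 ∧ l.1 ≠ p2 ∧ l.1 ≠ q2))) ?_
      · refine Gauss.perm ?_ pp.symm
        refine Gauss.perm (gauss_eight hnd sp sq (!sp) (!sq)) ?_
        have ex : (σ x).filter (fun l => !decide (l.1 ≠ p1 ∧ l.1 ≠ q1 ∧ l.1 ≠ p2 ∧ l.1 ≠ q2)) =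
            [(p2, true, !sp), (q2, true, !sq), (q1, true, sq), (p1, true, sp)] := by
          rw [σx]
          simp [vX, mx1, mx2, mx3, mx4]
        have ey : ([(p2, false, !sp), (p1, false, sp)] : List Letter).Perm
            ((σ (g, oP, sg)).filter
              (fun l => !decide (l.1 ≠ p1 ∧ l.1 ≠ q1 ∧ l.1 ≠ p2 ∧ l.1 ≠ q2))) := by
          rw [σy]
          cases bP
          · simp only [vY, Bool.false_eq_true, if_false]
            simp only [ne_eq, List.filter_cons, not_true_eq_false, false_and, and_false,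
              decide_false, Bool.not_false, if_true, my1, my2, my3, my4, not_false_eq_true,
              and_self, decide_true, Bool.not_true, Bool.false_eq_true, if_false,
              List.filter_nil]
            exact List.Perm.swap _ _ _
          · simp only [vY, if_true]
            simp only [ne_eq, List.filter_cons, not_true_eq_false, false_and, and_false,
              decide_false, Bool.not_false, if_true, my1, my2, my3, my4, not_false_eq_true,
              and_self, decide_true, Bool.not_true, Bool.false_eq_true, if_false,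
              List.filter_nil]
            exact List.Perm.refl _
        have ez : ([(q2, false, !sq), (q1, false, sq)] : List Letter).Perm
            ((σ (g, !oP, sg)).filter
              (fun l => !decide (l.1 ≠ p1 ∧ l.1 ≠ q1 ∧ l.1 ≠ p2 ∧ l.1 ≠ q2))) := by
          rw [σz]
          cases bQ
          · simp only [vY, Bool.false_eq_true, if_false]
            simp only [ne_eq, List.filter_cons, not_true_eq_false, false_and, and_false,
              decide_false, Bool.not_false, if_true, my1, my2, my3, my4, not_false_eq_true,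
              and_self, decide_true, Bool.not_true, Bool.false_eq_true, if_false,
              List.filter_nil]
            exact List.Perm.swap _ _ _
          · simp only [vY, if_true]
            simp only [ne_eq, List.filter_cons, not_true_eq_false, false_and, and_false,
              decide_false, Bool.not_false, if_true, my1, my2, my3, my4, not_false_eq_true,
              and_self, decide_true, Bool.not_true, Bool.false_eq_true, if_false,
              List.filter_nil]
            exact List.Perm.refl _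
        rw [ex]
        exact List.Perm.append (List.Perm.refl [(p2, true, !sp), (q2, true, !sq),
          (q1, true, sq), (p1, true, sp)]) (List.Perm.append ey ez)
      · intro m hmF c1 c2 c3
        obtain ⟨m1, m2, m3, m4⟩ := hm m hmF
        rw [σo m c1 c2 c3]
        simp [m1, m2, m3, m4]
  -- the two second moves
  have ix : vX x p1 q1 p2 q2 sp sq <:+: F.flatMap σ := by
    rw [← σx]; exact infix_flatMap_mem hx σ
  have iy : vY bP (g, oP, sg) p1 p2 sp <:+: F.flatMap σ := by
    rw [← σy]; exact infix_flatMap_mem hy σ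
  have iz : vY bQ (g, !oP, sg) q1 q2 sq <:+: F.flatMap σ := by
    rw [← σz]; exact infix_flatMap_mem hz σ
  have r1 : R2 (F.flatMap σ) ((F.flatMap σ).filter (fun l => l.1 ≠ q2 ∧ l.1 ≠ q1)) := by
    refine ⟨q2, q1, !sq, Ne.symm n5, ?_, ?_, rfl⟩
    · refine List.IsInfix.trans ⟨[x, (p2, true, !sp)], [(p1, true, sp)], ?_⟩ ix
      simp [vX]
    · cases bQ
      · right
        refine List.IsInfix.trans ⟨[], [(g, !oP, sg)], ?_⟩ iz
        simp [vY]
      · left
        refine List.IsInfix.trans ⟨[(g, !oP, sg)], [], ?_⟩ iz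
        simp [vY]
  have r2 : R2 ((F.flatMap σ).filter (fun l => l.1 ≠ q2 ∧ l.1 ≠ q1)) F := by
    have jx : (vX x p1 q1 p2 q2 sp sq).filter (fun l => l.1 ≠ q2 ∧ l.1 ≠ q1) <:+:
        (F.flatMap σ).filter (fun l => l.1 ≠ q2 ∧ l.1 ≠ q1) := ix.filter _
    have jy : (vY bP (g, oP, sg) p1 p2 sp).filter (fun l => l.1 ≠ q2 ∧ l.1 ≠ q1) <:+:
        (F.flatMap σ).filter (fun l => l.1 ≠ q2 ∧ l.1 ≠ q1) := iy.filter _
    refine ⟨p2, p1, !sp, Ne.symm n2, ?_, ?_, ?_⟩
    · refine List.IsInfix.trans ?_ jx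
      refine ⟨[x], [], ?_⟩
      simp [vX, mx2, mx4, n1, n3, Ne.symm n4, n6]
    · cases bP
      · right
        refine List.IsInfix.trans ?_ jy
        refine ⟨[], [(g, oP, sg)], ?_⟩
        simp [vY, my2, my4, n1, n3, Ne.symm n4, n6]
      · left
        refine List.IsInfix.trans ?_ jy
        refine ⟨[(g, oP, sg)], [], ?_⟩
        simp [vY, my2, my4, n1, n3, Ne.symm n4, n6]
    · rw [List.filter_filter]
      refine (fil _ ?_ ?_ ?_ ?_ ?_).symm
      · intro m hmF
        obtain ⟨m1, m2, m3, m4⟩ := hm m hmF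
        simp [m1, m2, m3, m4]
      · simp
      · simp
      · simp
      · simp
  -- the third move
  have e7 := swap3 (R3_nodup (!sp) (!sq) sg oP n6 (Ne.symm my3) (Ne.symm my4)) _ rfl
  have r3 : R3 (F.flatMap σ) (F.flatMap (sub3 x (g, oP, sg) (g, !oP, sg)
      (wX x p1 q1 p2 q2 sp sq) (wY bP (g, oP, sg) p1 p2 sp)
      (wY bQ (g, !oP, sg) q1 q2 sq))) := by
    refine ⟨p2, q2, g, !sp, !sq, sg, oP, !bP, !bQ, n6, Ne.symm my3, Ne.symm my4, ?_, ?_, ?_,
      ?_, ?_, ?_⟩
    · refine List.IsInfix.trans ⟨[x], [(q1, true, sq), (p1, true, sp)], ?_⟩ ix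
      simp [vX]
    · cases bP
      · simp only [Bool.not_false, if_true]
        refine List.IsInfix.trans ⟨[(p1, false, sp)], [], ?_⟩ iy
        simp [vY]
      · simp only [Bool.not_true, Bool.false_eq_true, if_false]
        refine List.IsInfix.trans ⟨[], [(p1, false, sp)], ?_⟩ iy
        simp [vY]
    · cases bQ
      · simp only [Bool.not_false, if_true]
        refine List.IsInfix.trans ⟨[(q1, false, sq)], [], ?_⟩ iz
        simp [vY]
      · simp only [Bool.not_true, Bool.false_eq_true, if_false]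
        refine List.IsInfix.trans ⟨[], [(q1, false, sq)], ?_⟩ iz
        simp [vY]
    · rw [h7]; cases sp <;> cases bP <;> cases bQ <;> rfl
    · rw [h8]; cases sp <;> cases bQ <;> rfl
    · rw [List.map_flatMap]
      refine List.flatMap_congr fun m hmF => ?_
      obtain ⟨e1, e2, e3, e4, e5, e6, e7⟩ := e7
      have eo : ∀ l : Letter, l.1 ≠ p2 → l.1 ≠ q2 → l.1 ≠ g → (Equiv.swap (p2, true, !sp)
          (q2, true, !sq) * Equiv.swap (p2, false, !sp) (g, oP, sg) *
          Equiv.swap (q2, false, !sq) (g, !oP, sg)) l = l := by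
        intro l l1 l2 l3
        refine e7 l ?_ ?_ ?_ ?_ ?_ ?_ <;> rintro rfl <;> simp at l1 l2 l3
      by_cases c1 : m = x
      · subst c1
        rw [σx, sub3_x]
        simp only [vX, wX, List.map_cons, List.map_nil, e1, e2]
        rw [eo m mx3 mx4 hxg, eo (q1, true, sq) n4 n5 (Ne.symm my2),
          eo (p1, true, sp) n2 n3 (Ne.symm my1)]
      by_cases c2 : m = (g, oP, sg)
      · subst c2
        rw [σy, sub3_y _ _ _ _ (Ne.symm hxy)]
        have e0 := eo (p1, false, sp) n2 n3 (Ne.symm my1)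
        cases bP
        · simp only [vY, wY, Bool.false_eq_true, if_false, List.map_cons, List.map_nil, e3, e4,
            e0]
        · simp only [vY, wY, if_true, List.map_cons, List.map_nil, e3, e4, e0]
      by_cases c3 : m = (g, !oP, sg)
      · subst c3
        rw [σz, sub3_z _ _ _ (Ne.symm hxz) (Ne.symm hyz)]
        have e0 := eo (q1, false, sq) n4 n5 (Ne.symm my2)
        cases bQ
        · simp only [vY, wY, Bool.false_eq_true, if_false, List.map_cons, List.map_nil, e5, e6,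
            e0]
        · simp only [vY, wY, if_true, List.map_cons, List.map_nil, e5, e6, e0]
      rw [σo m c1 c2 c3, sub3_o _ _ _ c1 c2 c3]
      simp only [List.map_cons, List.map_nil]
      obtain ⟨m1, m2, m3, m4⟩ := hm m hmF
      rw [e7 m ?_ ?_ ?_ c2 ?_ c3]
      · rintro rfl; exact m3 rfl
      · rintro rfl; exact m4 rfl
      · rintro rfl; exact m3 rfl
      · rintro rfl; exact m4 rfl
  have hG3 : Gauss (F.flatMap (sub3 x (g, oP, sg) (g, !oP, sg) (wX x p1 q1 p2 q2 sp sq)
      (wY bP (g, oP, sg) p1 p2 sp) (wY bQ (g, !oP, sg) q1 q2 sq))) := by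
    refine hG.perm (List.Perm.flatMap_left _ fun m hmF => ?_)
    by_cases c1 : m = x
    · subst c1
      rw [σx, sub3_x]
      exact wX_perm _ _ _ _ _ _ _
    by_cases c2 : m = (g, oP, sg)
    · subst c2
      rw [σy, sub3_y _ _ _ _ (Ne.symm hxy)]
      exact wY_perm _ _ _ _ _
    by_cases c3 : m = (g, !oP, sg)
    · subst c3
      rw [σz, sub3_z _ _ _ (Ne.symm hxz) (Ne.symm hyz)]
      exact wY_perm _ _ _ _ _
    rw [σo m c1 c2 c3, sub3_o _ _ _ c1 c2 c3]
  have s1 := Red.same (Or.inr r1) hG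
  have s2 := Red.same (Or.inr r2) (Red.gauss (Or.inr r1) hG)
  exact (s1.trans s2).symm.trans (WMove.same (Or.inr (Or.inr (Or.inl r3))) hG hG3)

theorem R3_nodup' {p q g : ℕ} (sp sq sg oP : Bool) (h1 : p ≠ q) (h2 : p ≠ g) (h3 : q ≠ g)
    (bP bQ : Bool) :
    [(p, true, sp), (q, true, sq), if bP then (p, false, sp) else (g, oP, sg),
      if bP then (g, oP, sg) else (p, false, sp), if bQ then (q, false, sq) else (g, !oP, sg),
      if bQ then (g, !oP, sg) else (q, false, sq)].Nodup := by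
  cases bP <;> cases bQ <;> cases oP <;>
  simp [h1, h2, h3, Ne.symm h1, Ne.symm h3, Ne.symm h2]

/-- Comparison of two words. -/
theorem third_compare {W : List Letter} (hW : Gauss W) {p q g p1 q1 : ℕ}
    {sp sq sg oP bP bQ : Bool} (h1 : p ≠ q) (h2 : p ≠ g) (h3 : q ≠ g)
    (h4 : Adj W (p, true, sp) (q, true, sq))
    (h5 : if bP then Adj W (p, false, sp) (g, oP, sg) else Adj W (g, oP, sg) (p, false, sp))
    (h6 : if bQ then Adj W (q, false, sq) (g, !oP, sg) else Adj W (g, !oP, sg) (q, false, sq))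
    (e : Equiv.Perm Letter) (e1 : e (p, true, sp) = (q, true, sq))
    (e2 : e (q, true, sq) = (p, true, sp)) (e3 : e (p, false, sp) = (g, oP, sg))
    (e4 : e (g, oP, sg) = (p, false, sp)) (e5 : e (q, false, sq) = (g, !oP, sg))
    (e6 : e (g, !oP, sg) = (q, false, sq))
    (e7 : ∀ l, l ≠ (p, true, sp) → l ≠ (q, true, sq) → l ≠ (p, false, sp) → l ≠ (g, oP, sg) →
      l ≠ (q, false, sq) → l ≠ (g, !oP, sg) → e l = l)
    (ρ : Equiv.Perm ℕ) (ρp : ρ p = p1) (ρq : ρ q = q1)
    (ρo : ∀ m ∈ W, m.1 ≠ p → m.1 ≠ q → ρ m.1 = m.1)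
    (τ : Letter → List Letter) (τo : ∀ m ∈ W, m.1 ≠ p → m.1 ≠ q → m.1 ≠ g → τ m = [m])
    (τpO : τ (p, true, sp) = []) (τpU : τ (p, false, sp) = [])
    (τqO : τ (q, true, sq) = [(q1, true, sq), (p1, true, sp)]) (τqU : τ (q, false, sq) = [])
    (τy : τ (g, oP, sg) = if bP then [(g, oP, sg), (p1, false, sp)] else
      [(p1, false, sp), (g, oP, sg)])
    (τz : τ (g, !oP, sg) = if bQ then [(g, !oP, sg), (q1, false, sq)] else
      [(q1, false, sq), (g, !oP, sg)]) :
    W.flatMap τ = (W.map e).map (ren ρ) := by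
  rw [List.map_map]
  have hmap : W.map (ren ρ ∘ e) = W.flatMap (fun m => [ren ρ (e m)]) := by
    rw [List.map_eq_flatMap]
    rfl
  rw [hmap]
  have hg : (g, oP, sg) ∈ W := by
    split_ifs at h5
    · exact h5.mem_right
    · exact h5.mem_left
  have ρg : ρ g = g := ρo _ hg (Ne.symm h2) (Ne.symm h3)
  have sgn : ∀ (a : ℕ) (o s : Bool), (a, o, s) ∈ W → ∀ l ∈ W, l.1 = a →
      l = (a, o, s) ∨ l = (a, !o, s) := by
    intro a o s ha l hl hla
    obtain ⟨l1, l2, l3⟩ := l
    dsimp only at hla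
    subst hla
    by_cases hl2 : l2 = o
    · left
      exact hW.eq_of_key hl ha (by simp [key, hl2])
    · right
      have bb : ∀ a b : Bool, a ≠ b → a = !b := by decide
      have hl2' : l2 = !o := bb _ _ hl2
      exact hW.eq_of_key hl (hW.mate _ _ _ ha) (by simp [key, hl2'])
  have hr : ∀ (a : ℕ) (b c : Bool), ren ρ (a, b, c) = (ρ a, b, c) := fun _ _ _ => rfl
  have h5' : Adj W (if bP then (p, false, sp) else (g, oP, sg))
      (if bP then (g, oP, sg) else (p, false, sp)) := by
    cases bP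
    · exact h5
    · exact h5
  have h6' : Adj W (if bQ then (q, false, sq) else (g, !oP, sg))
      (if bQ then (g, !oP, sg) else (q, false, sq)) := by
    cases bQ
    · exact h6
    · exact h6
  refine three_replace hW.wordNodup h4 h5' h6' (R3_nodup' sp sq sg oP h1 h2 h3 bP bQ)
    ?_ ?_ ?_ ?_
  · intro m hmW c1 c2 c3 c4 c5 c6
    have g1 : m.1 ≠ p := by
      intro h
      rcases sgn p true sp h4.mem_left m hmW h with h | h
      · exact c1 h
      · cases bP
        · exact c4 h
        · exact c3 h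
    have g2 : m.1 ≠ q := by
      intro h
      rcases sgn q true sq h4.mem_right m hmW h with h | h
      · exact c2 h
      · cases bQ
        · exact c6 h
        · exact c5 h
    have g3 : m.1 ≠ g := by
      intro h
      rcases sgn g oP sg hg m hmW h with h | h
      · cases bP
        · exact c3 h
        · exact c4 h
      · cases bQ
        · exact c5 h
        · exact c6 h
    rw [τo m hmW g1 g2 g3]
    have : e m = m := e7 m (fun h => g1 (by rw [h])) (fun h => g2 (by rw [h]))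
      (fun h => g1 (by rw [h])) (fun h => g3 (by rw [h])) (fun h => g2 (by rw [h]))
      (fun h => g3 (by rw [h]))
    rw [this]
    simp only [ren, ρo m hmW g1 g2]
  · rw [τpO, τqO, e1, e2, hr, hr, ρp, ρq]
    rfl
  · cases bP
    · simp only [Bool.false_eq_true, if_false] at τy ⊢
      rw [τy, τpU, e3, e4, hr, hr, ρp, ρg]
      rfl
    · simp only [if_true] at τy ⊢
      rw [τy, τpU, e3, e4, hr, hr, ρp, ρg]
      rfl
  · cases bQ
    · simp only [Bool.false_eq_true, if_false] at τz ⊢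
      rw [τz, τqU, e5, e6, hr, hr, ρq, ρg]
      rfl
    · simp only [if_true] at τz ⊢
      rw [τz, τqU, e5, e6, hr, hr, ρq, ρg]
      rfl

/-- The word of the kept letters after the third move, obtained from the word with the inserted
crossings by two second moves. -/
theorem third_W {W : List Letter} (hW : Gauss W) {p q g p1 q1 p2 q2 : ℕ}
    {sp sq sg oP bP bQ : Bool} (h1 : p ≠ q) (h2 : p ≠ g) (h3 : q ≠ g)
    (h4 : Adj W (p, true, sp) (q, true, sq))
    (h5 : if bP then Adj W (p, false, sp) (g, oP, sg) else Adj W (g, oP, sg) (p, false, sp))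
    (h6 : if bQ then Adj W (q, false, sq) (g, !oP, sg) else Adj W (g, !oP, sg) (q, false, sq))
    (f1 : p1 ∉ names W) (f2 : q1 ∉ names W) (f3 : p2 ∉ names W)
    (f4 : q2 ∉ names W) (hnd : [p1, q1, p2, q2].Nodup) :
    RedStar (W.flatMap (sub3 (q, true, sq) (g, oP, sg) (g, !oP, sg)
      (wX (q, true, sq) p1 q1 p2 q2 sp sq) (wY bP (g, oP, sg) p1 p2 sp)
      (wY bQ (g, !oP, sg) q1 q2 sq)))
      ((W.map (Equiv.swap (p, true, sp) (q, true, sq) *
      Equiv.swap (p, false, sp) (g, oP, sg) * Equiv.swap (q, false, sq) (g, !oP, sg))).map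
        (ren (Equiv.swap p p1 * Equiv.swap q q1))) := by
  have hnd' := hnd
  simp only [List.nodup_cons, List.mem_cons, List.not_mem_nil, or_false, not_or,
    not_false_eq_true, List.nodup_nil, and_true] at hnd'
  obtain ⟨⟨n1, n2, n3⟩, ⟨n4, n5⟩, n6⟩ := hnd'
  have hm : ∀ m ∈ W, m.1 ≠ p1 ∧ m.1 ≠ q1 ∧ m.1 ≠ p2 ∧ m.1 ≠ q2 := by
    intro m hm
    have := fst_mem_names hm
    refine ⟨?_, ?_, ?_, ?_⟩ <;> rintro rfl <;> contradiction
  have mp := hm _ h4.mem_left
  have mq := hm _ h4.mem_right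
  have mg : g ≠ p1 ∧ g ≠ q1 ∧ g ≠ p2 ∧ g ≠ q2 := by
    split_ifs at h5
    · exact hm _ h5.mem_right
    · exact hm _ h5.mem_left
  obtain ⟨mp1, mp2, mp3, mp4⟩ := mp
  obtain ⟨mq1, mq2, mq3, mq4⟩ := mq
  obtain ⟨mg1, mg2, mg3, mg4⟩ := mg
  dsimp only at mp1 mp2 mp3 mp4 mq1 mq2 mq3 mq4
  obtain ⟨σ, hσ⟩ : ∃ σ, σ = sub3 (q, true, sq) (g, oP, sg) (g, !oP, sg)
      (wX (q, true, sq) p1 q1 p2 q2 sp sq) (wY bP (g, oP, sg) p1 p2 sp)
      (wY bQ (g, !oP, sg) q1 q2 sq) := ⟨_, rfl⟩
  rw [← hσ]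
  have hqg : ∀ a b c d : Bool, ((g, a, b) : Letter) ≠ (q, c, d) := by
    intro a b c d h; exact h3 (congrArg Prod.fst h).symm
  have hqg' : ∀ a b c d : Bool, ((q, a, b) : Letter) ≠ (g, c, d) := by
    intro a b c d h; exact h3 (congrArg Prod.fst h)
  have hpg' : ∀ a b c d : Bool, ((p, a, b) : Letter) ≠ (g, c, d) := by
    intro a b c d h; exact h2 (congrArg Prod.fst h)
  have hpq' : ∀ a b c d : Bool, ((p, a, b) : Letter) ≠ (q, c, d) := by
    intro a b c d h; exact h1 (congrArg Prod.fst h)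
  have hyz : ((g, oP, sg) : Letter) ≠ (g, !oP, sg) := by cases oP <;> simp
  have σx : σ (q, true, sq) = wX (q, true, sq) p1 q1 p2 q2 sp sq := by rw [hσ, sub3_x]
  have σy : σ (g, oP, sg) = wY bP (g, oP, sg) p1 p2 sp := by
    rw [hσ, sub3_y _ _ _ _ (hqg _ _ _ _)]
  have σz : σ (g, !oP, sg) = wY bQ (g, !oP, sg) q1 q2 sq := by
    rw [hσ, sub3_z _ _ _ (hqg _ _ _ _) (Ne.symm hyz)]
  have σo : ∀ m, m ≠ (q, true, sq) → m ≠ (g, oP, sg) → m ≠ (g, !oP, sg) → σ m = [m] := by
    intro m h h' h''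
    rw [hσ, sub3_o _ _ _ h h' h'']
  have σp : ∀ a b : Bool, σ (p, a, b) = [(p, a, b)] := fun a b =>
    σo _ (hpq' _ _ _ _) (hpg' _ _ _ _) (hpg' _ _ _ _)
  have σq : σ (q, false, sq) = [(q, false, sq)] :=
    σo _ (by simp) (hqg' _ _ _ _) (hqg' _ _ _ _)
  -- infixes
  have ix : [(p, true, sp)] ++ wX (q, true, sq) p1 q1 p2 q2 sp sq <:+: W.flatMap σ := by
    have := h4.flatMap σ
    rwa [σp, σx] at this
  have iy : if bP then [(p, false, sp)] ++ wY bP (g, oP, sg) p1 p2 sp <:+: W.flatMap σ else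
      wY bP (g, oP, sg) p1 p2 sp ++ [(p, false, sp)] <:+: W.flatMap σ := by
    split_ifs at h5 ⊢
    · have := h5.flatMap σ
      rwa [σp, σy] at this
    · have := h5.flatMap σ
      rwa [σp, σy] at this
  have iz : if bQ then [(q, false, sq)] ++ wY bQ (g, !oP, sg) q1 q2 sq <:+: W.flatMap σ else
      wY bQ (g, !oP, sg) q1 q2 sq ++ [(q, false, sq)] <:+: W.flatMap σ := by
    split_ifs at h6 ⊢
    · have := h6.flatMap σ
      rwa [σq, σz] at this
    · have := h6.flatMap σ
      rwa [σq, σz] at this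
  have r1 : R2 (W.flatMap σ) ((W.flatMap σ).filter (fun l => l.1 ≠ q ∧ l.1 ≠ q2)) := by
    refine ⟨q, q2, sq, mq4, ?_, ?_, rfl⟩
    · refine List.IsInfix.trans ⟨[(p, true, sp)], [(p2, true, !sp), (q1, true, sq),
        (p1, true, sp)], ?_⟩ ix
      simp [wX]
    · cases bQ
      · right
        simp only [Bool.false_eq_true, if_false] at iz
        refine List.IsInfix.trans ⟨[(q1, false, sq), (g, !oP, sg)], [], ?_⟩ iz
        simp [wY]
      · left
        simp only [if_true] at iz
        refine List.IsInfix.trans ⟨[], [(g, !oP, sg), (q1, false, sq)], ?_⟩ iz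
        simp [wY]
  have filx : (wX (q, true, sq) p1 q1 p2 q2 sp sq).filter (fun l => l.1 ≠ q ∧ l.1 ≠ q2) =
      [(p2, true, !sp), (q1, true, sq), (p1, true, sp)] := by
    simp [wX, Ne.symm mq1, Ne.symm mq2, Ne.symm mq3, n3, n5, n6]
  have filp : ∀ a b : Bool, ([(p, a, b)] : List Letter).filter (fun l => l.1 ≠ q ∧ l.1 ≠ q2) =
      [(p, a, b)] := by
    intro a b
    simp [h1, mp4]
  have fily : (wY bP (g, oP, sg) p1 p2 sp).filter (fun l => l.1 ≠ q ∧ l.1 ≠ q2) =
      wY bP (g, oP, sg) p1 p2 sp := by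
    cases bP
    · simp [wY, Ne.symm mq1, Ne.symm mq3, n3, n6, Ne.symm h3, mg4]
    · simp [wY, Ne.symm mq1, Ne.symm mq3, n3, n6, Ne.symm h3, mg4]
  have filz : (wY bQ (g, !oP, sg) q1 q2 sq).filter (fun l => l.1 ≠ q ∧ l.1 ≠ q2) =
      if bQ then [(g, !oP, sg), (q1, false, sq)] else [(q1, false, sq), (g, !oP, sg)] := by
    cases bQ
    · simp [wY, Ne.symm mq2, n5, Ne.symm h3, mg4]
    · simp [wY, Ne.symm mq2, n5, Ne.symm h3, mg4]
  have r2 : R2 ((W.flatMap σ).filter (fun l => l.1 ≠ q ∧ l.1 ≠ q2))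
      (((W.flatMap σ).filter (fun l => l.1 ≠ q ∧ l.1 ≠ q2)).filter
        (fun l => l.1 ≠ p ∧ l.1 ≠ p2)) := by
    refine ⟨p, p2, sp, mp3, ?_, ?_, rfl⟩
    · refine List.IsInfix.trans ?_ (ix.filter (fun l => l.1 ≠ q ∧ l.1 ≠ q2))
      rw [List.filter_append, filx, filp]
      exact ⟨[], [(q1, true, sq), (p1, true, sp)], rfl⟩
    · cases bP
      · right
        simp only [Bool.false_eq_true, if_false] at iy
        refine List.IsInfix.trans ?_ (iy.filter (fun l => l.1 ≠ q ∧ l.1 ≠ q2))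
        rw [List.filter_append, fily, filp]
        exact ⟨[(p1, false, sp), (g, oP, sg)], [], rfl⟩
      · left
        simp only [if_true] at iy
        refine List.IsInfix.trans ?_ (iy.filter (fun l => l.1 ≠ q ∧ l.1 ≠ q2))
        rw [List.filter_append, fily, filp]
        exact ⟨[], [(g, oP, sg), (p1, false, sp)], rfl⟩
  refine Relation.ReflTransGen.head (Or.inr r1) (Relation.ReflTransGen.head (Or.inr r2) ?_)
  -- comparison of the two words
  obtain ⟨e1, e2, e3, e4, e5, e6, e7⟩ := swap3 (R3_nodup sp sq sg oP h1 h2 h3) _ rfl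
  have ρp : (Equiv.swap p p1 * Equiv.swap q q1) p = p1 := by
    rw [Equiv.Perm.mul_apply, Equiv.swap_apply_of_ne_of_ne h1 mp2, Equiv.swap_apply_left]
  have ρq : (Equiv.swap p p1 * Equiv.swap q q1) q = q1 := by
    rw [Equiv.Perm.mul_apply, Equiv.swap_apply_left,
      Equiv.swap_apply_of_ne_of_ne (Ne.symm mp2) (Ne.symm n1)]
  have ρo : ∀ m ∈ W, m.1 ≠ p → m.1 ≠ q →
      (Equiv.swap p p1 * Equiv.swap q q1) m.1 = m.1 := by
    intro m hmW c1 c2
    obtain ⟨m1, m2, m3, m4⟩ := hm m hmW
    rw [Equiv.Perm.mul_apply, Equiv.swap_apply_of_ne_of_ne c2 m2,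
      Equiv.swap_apply_of_ne_of_ne c1 m1]
  have goal := third_compare hW h1 h2 h3 h4 h5 h6 _ e1 e2 e3 e4 e5 e6 e7 _ ρp ρq ρo
    (fun m => ((σ m).filter (fun l => l.1 ≠ q ∧ l.1 ≠ q2)).filter (fun l => l.1 ≠ p ∧ l.1 ≠ p2))
    ?_ ?_ ?_ ?_ ?_ ?_ ?_
  · rw [List.filter_flatMap, List.filter_flatMap, goal]
  · intro m hmW c1 c2 c3
    obtain ⟨m1, m2, m3, m4⟩ := hm m hmW
    rw [σo m (by rintro rfl; exact c2 rfl) (by rintro rfl; exact c3 rfl)
      (by rintro rfl; exact c3 rfl)]
    simp [c1, c2, m3, m4]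
  · rw [σp, filp]
    simp
  · rw [σp, filp]
    simp
  · rw [σx, filx]
    simp [Ne.symm mp1, Ne.symm mp2, n2, n4]
  · rw [σq]
    simp
  · rw [σy, fily]
    cases bP
    · simp [wY, Ne.symm mp1, n2, Ne.symm h2, mg3]
    · simp [wY, Ne.symm mp1, n2, Ne.symm h2, mg3]
  · rw [σz, filz]
    cases bQ
    · simp [Ne.symm mp2, n4, Ne.symm h2, mg3]
    · simp [Ne.symm mp2, n4, Ne.symm h2, mg3]

end Q174.VK
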