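import Pool.Agent.Q174.VK.Gauss

/-! # Modified words and the moves creating crossings -/

namespace Q174.VK

open Diagram

/-! ### Equivalence of Gauss words -/

/-- Two Gauss words represent the same virtual knot. -/
def SameW (w w' : List Letter) : Prop :=
  ∃ (h : Gauss w) (h' : Gauss w'), SameKnot h.toDiagram h'.toDiagram

theorem SameW.rfl' {w : List Letter} (h : Gauss w) : SameW w w :=
  ⟨h, h, Relation.EqvGen.refl _⟩

theorem SameW.symm {w w' : List Letter} (h : SameW w w') : SameW w' w := by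
  obtain ⟨h1, h2, h3⟩ := h
  exact ⟨h2, h1, Relation.EqvGen.symm _ _ h3⟩

theorem SameW.trans {w w' w'' : List Letter} (h : SameW w w') (h' : SameW w' w'') :
    SameW w w'' := by
  obtain ⟨h1, h2, h3⟩ := h
  obtain ⟨h4, h5, h6⟩ := h'
  exact ⟨h1, h5, Relation.EqvGen.trans _ _ _ h3 h6⟩

/-- The elementary moves on words. -/
def WMove (w w' : List Letter) : Prop :=
  R1 w w' ∨ R2 w w' ∨ R3 w w' ∨ Rotation w w' ∨ Renaming w w'

theorem WMove.same {w w' : List Letter} (h : WMove w w') (h1 : Gauss w) (h2 : Gauss w') :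
    SameW w w' := ⟨h1, h2, Relation.EqvGen.rel _ _ h⟩

theorem WMove.ren {w w' : List Letter} (h : WMove w w') (π : Equiv.Perm ℕ) :
    WMove (w.map (ren π)) (w'.map (ren π)) := by
  rcases h with h | h | h | h | ⟨ρ, rfl⟩
  · exact Or.inl (h.ren π)
  · exact Or.inr (Or.inl (h.ren π))
  · exact Or.inr (Or.inr (Or.inl (h.ren π)))
  · exact Or.inr (Or.inr (Or.inr (Or.inl (h.ren π))))
  · refine Or.inr (Or.inr (Or.inr (Or.inr ⟨π * ρ * π⁻¹, ?_⟩)))
    rw [List.map_map, List.map_map]
    refine List.map_congr_left fun l _ => ?_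
    simp [VK.ren]

theorem Red.gauss {w w' : List Letter} (h : Red w w') (hw : Gauss w) : Gauss w' := by
  rcases h with ⟨c, o, s, _, rfl⟩ | ⟨a, b, s, _, _, _, rfl⟩
  · exact hw.filter _ (by intro l m h; simp [h])
  · exact hw.filter _ (by intro l m h; simp [h])

theorem Red.same {w w' : List Letter} (h : Red w w') (hw : Gauss w) : SameW w w' := by
  refine WMove.same ?_ hw (h.gauss hw)
  rcases h with h | h
  · exact Or.inl h
  · exact Or.inr (Or.inl h)

theorem RedStar.gauss {w w' : List Letter} (h : RedStar w w') (hw : Gauss w) : Gauss w' := by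
  induction h with
  | refl => exact hw
  | tail _ h ih => exact h.gauss ih

theorem RedStar.same {w w' : List Letter} (h : RedStar w w') (hw : Gauss w) :
    SameW w w' := by
  induction h with
  | refl => exact SameW.rfl' hw
  | tail h0 h ih => exact ih.trans (h.same (RedStar.gauss h0 hw))

/-! ### Modified words -/

/-- The word obtained from `w` by removing the crossings in `D` and changing those in `C`. -/
def md (C D : Finset ℕ) (w : List Letter) : List Letter :=
  (w.filter (fun l => l.1 ∉ D)).map (changeLetter C)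

theorem changeLetter_fst (C : Finset ℕ) (l : Letter) : (changeLetter C l).1 = l.1 := by
  unfold changeLetter
  split_ifs <;> rfl

theorem changeLetter_of_notMem {C : Finset ℕ} {l : Letter} (h : l.1 ∉ C) :
    changeLetter C l = l := by
  unfold changeLetter
  rw [if_neg h]

theorem names_md (C D : Finset ℕ) (w : List Letter) : names (md C D w) ⊆ names w := by
  intro c hc
  obtain ⟨l, hl, rfl⟩ := mem_names.1 hc
  unfold md at hl
  rw [List.mem_map] at hl
  obtain ⟨m, hm, rfl⟩ := hl
  rw [changeLetter_fst]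
  exact fst_mem_names (List.mem_of_mem_filter hm)

theorem not_mem_of_names_md {C D : Finset ℕ} {w : List Letter} {c : ℕ}
    (h : c ∈ names (md C D w)) : c ∉ D := by
  obtain ⟨l, hl, rfl⟩ := mem_names.1 h
  unfold md at hl
  rw [List.mem_map] at hl
  obtain ⟨m, hm, rfl⟩ := hl
  rw [changeLetter_fst]
  simpa using (List.mem_filter.1 hm).2

theorem md_append (C D : Finset ℕ) (u v : List Letter) :
    md C D (u ++ v) = md C D u ++ md C D v := by
  simp [md]

theorem md_of_fresh {C D : Finset ℕ} {w : List Letter} (h : ∀ l ∈ w, l.1 ∉ C ∧ l.1 ∉ D) :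
    md C D w = w := by
  unfold md
  rw [List.filter_eq_self.2 (fun l hl => by simpa using (h l hl).2)]
  conv_rhs => rw [← List.map_id w]
  exact List.map_congr_left fun l hl => changeLetter_of_notMem (h l hl).1

theorem mem_md {C D : Finset ℕ} {w : List Letter} {l : Letter} :
    l ∈ md C D w ↔ changeLetter C l ∈ w ∧ l.1 ∉ D := by
  unfold md
  rw [List.mem_map]
  constructor
  · rintro ⟨m, hm, rfl⟩
    rw [changeLetter_changeLetter, changeLetter_fst]
    rw [List.mem_filter] at hm
    exact ⟨hm.1, by simpa using hm.2⟩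
  · rintro ⟨h1, h2⟩
    refine ⟨changeLetter C l, List.mem_filter.2 ⟨h1, ?_⟩, changeLetter_changeLetter C l⟩
    rw [changeLetter_fst]; simpa using h2

theorem Gauss.md {w : List Letter} (h : Gauss w) (C D : Finset ℕ) : Gauss (md C D w) := by
  have h1 : Gauss (w.filter (fun l => l.1 ∉ D)) := h.filter _ (by intro l m h; simp [h])
  exact (h1.toDiagram.change C).gauss

/-! ### Fresh names -/

theorem exists_fresh (N A : Finset ℕ) :
    ∃ ρ : Equiv.Perm ℕ, (∀ x ∈ N, ρ x ∉ A) ∧ ∀ x ∈ A, x ∉ N → ρ x = x := by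
  obtain ⟨M, hM⟩ : ∃ M, ∀ x ∈ N ∪ A, x < M := by
    refine ⟨(N ∪ A).sup id + 1, fun x hx => Nat.lt_succ_of_le ?_⟩
    exact Finset.le_sup (f := id) hx
  have hN : ∀ x ∈ N, x < M := fun x hx => hM x (Finset.mem_union_left _ hx)
  have hA : ∀ x ∈ A, x < M := fun x hx => hM x (Finset.mem_union_right _ hx)
  obtain ⟨f, hf⟩ : ∃ f : ℕ → ℕ, f = fun x => if x ∈ N then x + M else
      if M ≤ x ∧ x - M ∈ N then x - M else x := ⟨_, rfl⟩
  have hinv : Function.Involutive f := by
    intro x
    rw [hf]
    dsimp only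
    by_cases h1 : x ∈ N
    · rw [if_pos h1, if_neg (fun h => absurd (hN _ h) (by omega)), if_pos]
      · omega
      · refine ⟨by omega, ?_⟩
        rw [Nat.add_sub_cancel]; exact h1
    · rw [if_neg h1]
      by_cases h2 : M ≤ x ∧ x - M ∈ N
      · rw [if_pos h2, if_pos h2.2]
        omega
      · rw [if_neg h2, if_neg h1, if_neg h2]
  refine ⟨hinv.toPerm f, ?_, ?_⟩
  · intro x hx hx'
    have : hinv.toPerm f x = x + M := by
      change f x = x + M
      rw [hf]; dsimp only; rw [if_pos hx]
    rw [this] at hx'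
    have := hA _ hx'
    omega
  · intro x hx hx'
    change f x = x
    rw [hf]; dsimp only
    rw [if_neg hx', if_neg]
    intro h
    have := hA _ hx
    omega

/-! ### Creating crossings -/

theorem ren_map_of_fix {ρ : Equiv.Perm ℕ} {w : List Letter} (h : ∀ x ∈ names w, ρ x = x) :
    w.map (ren ρ) = w := by
  conv_rhs => rw [← List.map_id w]
  refine List.map_congr_left fun l hl => ?_
  unfold ren
  rw [h _ (fst_mem_names hl)]
  rfl

theorem up_aux {C D : Finset ℕ} {F u v t P Q : List Letter}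
    (hred : RedStar (md C D F) (u ++ v ++ t))
    (hdis : ∀ x ∈ P ++ Q, x.1 ∉ names (u ++ v ++ t)) :
    ∃ (ρ : Equiv.Perm ℕ) (F1 F2 F3 : List Letter), F = F1 ++ F2 ++ F3 ∧
      (∀ x ∈ P.map (ren ρ) ++ Q.map (ren ρ), x.1 ∉ names F) ∧
      RedStar (md C D (F1 ++ P.map (ren ρ) ++ F2 ++ Q.map (ren ρ) ++ F3))
        ((u ++ P ++ v ++ Q ++ t).map (ren ρ)) := by
  obtain ⟨ρ, h1, h2⟩ := exists_fresh (names (P ++ Q)) (names F ∪ C ∪ D ∪ names (u ++ v ++ t))
  have hfr : ∀ x ∈ P.map (ren ρ) ++ Q.map (ren ρ), x.1 ∉ names F ∪ C ∪ D := by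
    intro x hx
    rw [← List.map_append, List.mem_map] at hx
    obtain ⟨y, hy, rfl⟩ := hx
    intro h3
    exact h1 y.1 (fst_mem_names hy) (Finset.mem_union_left _ h3)
  obtain ⟨G1, G2, G3, hG, hins⟩ := hred.insert
  have hfix : ∀ w : List Letter, names w ⊆ names (u ++ v ++ t) → w.map (ren ρ) = w := by
    intro w hw
    refine ren_map_of_fix fun x hx => h2 x (Finset.mem_union_right _ (hw hx)) fun hx' => ?_
    obtain ⟨l, hl, rfl⟩ := mem_names.1 hx'
    exact hdis l hl (hw hx)
  -- splitting `F`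
  have hsplit : ∃ F1 F2 F3, F = F1 ++ F2 ++ F3 ∧ md C D F1 = G1 ∧ md C D F2 = G2 ∧
      md C D F3 = G3 := by
    unfold md at hG
    obtain ⟨H12, H3, e1, e2, e3⟩ := List.map_eq_append_iff.1 hG
    obtain ⟨H1, H2, e4, e5, e6⟩ := List.map_eq_append_iff.1 e2
    obtain ⟨F12, F3, e7, e8, e9, _⟩ := exists_split e1
    rw [e4] at e8
    obtain ⟨F1, F2, e10, e11, e12, _⟩ := exists_split e8
    refine ⟨F1, F2, F3, ?_, ?_, ?_, ?_⟩
    · rw [e7, e10]
    · unfold md; rw [e11, e5]
    · unfold md; rw [e12, e6]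
    · unfold md; rw [e9, e3]
  obtain ⟨F1, F2, F3, hF, e1, e2, e3⟩ := hsplit
  refine ⟨ρ, F1, F2, F3, hF, fun x hx hx' => hfr x hx (by simp [hx']), ?_⟩
  have hP : md C D (P.map (ren ρ)) = P.map (ren ρ) := md_of_fresh fun l hl => by
    have := hfr l (List.mem_append_left _ hl)
    simp only [Finset.mem_union, not_or] at this
    exact ⟨this.1.2, this.2⟩
  have hQ : md C D (Q.map (ren ρ)) = Q.map (ren ρ) := md_of_fresh fun l hl => by
    have := hfr l (List.mem_append_right _ hl)
    simp only [Finset.mem_union, not_or] at this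
    exact ⟨this.1.2, this.2⟩
  rw [md_append, md_append, md_append, md_append, e1, e2, e3, hP, hQ]
  rw [List.map_append, List.map_append, List.map_append, List.map_append,
    hfix u (by intro x hx; simp [names_append, hx]),
    hfix v (by intro x hx; simp [names_append, hx]),
    hfix t (by intro x hx; simp [names_append, hx])]
  refine hins _ _ ?_
  intro x hx hx'
  exact hfr x hx (by simp [names_md C D F hx'])

/-- Three cases for neighbours in a concatenation. -/
theorem adj_append3 {G1 G2 : List Letter} {x y : Letter} (h : Adj (G1 ++ G2) x y) :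
    Adj G1 x y ∨ Adj G2 x y ∨ (x ∈ G1 ∧ y ∈ G2 ∧ x ∈ G1.getLast? ∧ y ∈ G2.head?) := by
  obtain ⟨u, v, h⟩ := h
  rw [List.append_assoc] at h
  rcases List.append_eq_append_iff.1 h with ⟨r, h1, h2⟩ | ⟨r, h1, h2⟩
  · rcases r with _ | ⟨a, r⟩
    · right; left
      refine ⟨[], v, ?_⟩
      simpa using h2
    · simp only [List.cons_append, List.nil_append, List.cons.injEq] at h2
      obtain ⟨rfl, h2⟩ := h2
      rcases r with _ | ⟨b, r⟩
      · right; right
        simp only [List.nil_append] at h2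
        rw [h1, ← h2]
        simp
      · simp only [List.cons_append, List.cons.injEq] at h2
        obtain ⟨rfl, h2⟩ := h2
        left
        exact ⟨u, r, by rw [h1]; simp⟩
  · right; left
    exact ⟨r, v, by rw [h2]; simp⟩

/-- Decomposition of a word with two disjoint pairs of neighbours. -/
theorem two_pairs {w : List Letter} {x1 x2 y1 y2 : Letter} (hx : Adj w x1 x2)
    (hy : Adj w y1 y2) (h1 : y1 ≠ x1) (h2 : y1 ≠ x2) (h3 : y2 ≠ x1) (_ : y2 ≠ x2) :
    ∃ u v t, w = u ++ [x1, x2] ++ v ++ [y1, y2] ++ t ∨ w = u ++ [y1, y2] ++ v ++ [x1, x2] ++ t := by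
  obtain ⟨u, v, rfl⟩ := hx
  rcases adj_append3 hy with h | h | ⟨_, _, h, _⟩
  · rcases adj_append3 h with h | h | ⟨_, _, _, h⟩
    · obtain ⟨a, b, rfl⟩ := h
      exact ⟨a, b, v, Or.inr (by simp)⟩
    · exfalso
      have := h.mem_left
      simp only [List.mem_cons, List.not_mem_nil, or_false] at this
      rcases this with h | h
      · exact h1 h
      · exact h2 h
    · exfalso
      simp only [List.head?_cons, Option.mem_def, Option.some.injEq] at h
      exact h3 h.symm
  · obtain ⟨a, b, rfl⟩ := h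
    exact ⟨u, a, b, Or.inl (by simp)⟩
  · exfalso
    simp only [List.getLast?_append, List.getLast?_cons_cons, List.getLast?_singleton,
      Option.mem_def, Option.some_or, Option.some.injEq] at h
    exact h2 h.symm

/-- A part of a Gauss word which is itself a Gauss word has no crossing in common with the
rest. -/
theorem Gauss.disjoint {P R : List Letter} (h : Gauss (P ++ R)) (hP : Gauss P) :
    ∀ x ∈ P, x.1 ∉ names R := by
  intro x hx hx'
  obtain ⟨l, hl, hlx⟩ := mem_names.1 hx'
  have hn := h.nodup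
  rw [List.map_append, List.nodup_append] at hn
  obtain ⟨_, _, h2⟩ := hn
  obtain ⟨c, o, s⟩ := x
  obtain ⟨c', o', s'⟩ := l
  dsimp only at hlx
  subst hlx
  by_cases ho : o' = o
  · subst ho
    exact h2 _ (List.mem_map_of_mem hx) _ (List.mem_map_of_mem hl) rfl
  · have ho2 : o' = !o := by cases o <;> cases o' <;> simp_all
    subst ho2
    exact h2 _ (List.mem_map_of_mem (hP.mate _ _ _ hx)) _ (List.mem_map_of_mem hl) rfl

theorem up_perm (u P v Q t : List Letter) :
    (u ++ P ++ v ++ Q ++ t).Perm ((P ++ Q) ++ (u ++ v ++ t)) := by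
  rw [← Multiset.coe_eq_coe]
  simp only [← Multiset.coe_add]
  abel

theorem up_step {C D : Finset ℕ} {F u v t P Q : List Letter} (hF : Gauss F)
    (hPQ : Gauss (P ++ Q)) (hW1 : Gauss (u ++ P ++ v ++ Q ++ t))
    (hred : RedStar (md C D F) (u ++ v ++ t))
    (hmove : ∀ (ρ : Equiv.Perm ℕ) (F1 F2 F3 : List Letter),
      (∀ x ∈ P.map (ren ρ) ++ Q.map (ren ρ), x.1 ∉ names (F1 ++ F2 ++ F3)) →
      Red (F1 ++ P.map (ren ρ) ++ F2 ++ Q.map (ren ρ) ++ F3) (F1 ++ F2 ++ F3)) :
    ∃ (F' : List Letter) (ρ : Equiv.Perm ℕ), SameW F F' ∧ names F ⊆ names F' ∧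
      RedStar (md C D F') ((u ++ P ++ v ++ Q ++ t).map (ren ρ)) := by
  have hdis := (hW1.perm (up_perm u P v Q t)).disjoint hPQ
  obtain ⟨ρ, F1, F2, F3, rfl, hfr, hred'⟩ := up_aux hred hdis
  refine ⟨_, ρ, ?_, ?_, hred'⟩
  · have hG : Gauss (F1 ++ P.map (ren ρ) ++ F2 ++ Q.map (ren ρ) ++ F3) := by
      refine Gauss.perm ?_ (up_perm _ _ _ _ _).symm
      refine Gauss.append ?_ hF hfr
      rw [← List.map_append]
      exact hPQ.ren ρ
    exact ((hmove ρ F1 F2 F3 hfr).same hG).symm
  · intro x hx
    simp only [names_append, Finset.mem_union] at hx ⊢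
    tauto

theorem filter_up {u P v Q t : List Letter} {p : Letter → Bool}
    (h1 : ∀ x ∈ P ++ Q, p x = false) (h2 : ∀ x ∈ u ++ v ++ t, p x = true) :
    (u ++ P ++ v ++ Q ++ t).filter p = u ++ v ++ t := by
  have e1 : ∀ w : List Letter, (∀ x ∈ w, p x = true) → w.filter p = w := fun w h =>
    List.filter_eq_self.2 h
  have e2 : ∀ w : List Letter, (∀ x ∈ w, p x = false) → w.filter p = [] := fun w h =>
    List.filter_eq_nil_iff.2 fun x hx => by simp [h x hx]
  simp only [List.filter_append]
  rw [e1 u fun x hx => h2 x (by simp [hx]), e1 v fun x hx => h2 x (by simp [hx]),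
    e1 t fun x hx => h2 x (by simp [hx]), e2 P fun x hx => h1 x (by simp [hx]),
    e2 Q fun x hx => h1 x (by simp [hx])]
  simp

theorem infix_up1 (u P v Q t : List Letter) : P <:+: u ++ P ++ v ++ Q ++ t :=
  ⟨u, v ++ Q ++ t, by simp⟩

theorem infix_up2 (u P v Q t : List Letter) : Q <:+: u ++ P ++ v ++ Q ++ t :=
  ⟨u ++ P ++ v, t, by simp⟩

/-- Creating one crossing. -/
theorem step_R1_up {C D : Finset ℕ} {F W W1 : List Letter} (hF : Gauss F) (hW1 : Gauss W1)
    (hred : RedStar (md C D F) W) (hm : R1 W1 W) :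
    ∃ (F' : List Letter) (ρ : Equiv.Perm ℕ), SameW F F' ∧ names F ⊆ names F' ∧
      RedStar (md C D F') (W1.map (ren ρ)) := by
  obtain ⟨c, o, s, ⟨u, v, rfl⟩, rfl⟩ := hm
  have hPQ : Gauss ([(c, o, s), (c, !o, s)] ++ []) := by
    rw [List.append_nil]; exact gauss_two c o s
  have e : u ++ [(c, o, s), (c, !o, s)] ++ v = u ++ [(c, o, s), (c, !o, s)] ++ v ++ [] ++ [] :=
    by simp
  rw [e] at hW1 hred ⊢
  have hdis := (hW1.perm (up_perm _ _ _ _ _)).disjoint hPQ
  rw [filter_up] at hred
  · refine up_step hF hPQ hW1 hred ?_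
    intro ρ F1 F2 F3 hfr
    refine Or.inl ⟨ρ c, o, s, infix_up1 _ _ _ _ _, ?_⟩
    refine (filter_up ?_ ?_).symm
    · intro x hx
      simp only [ren, List.map_cons, List.map_nil, List.append_nil, List.mem_cons,
        List.not_mem_nil, or_false] at hx
      rcases hx with rfl | rfl <;> simp
    · intro x hx
      have : x.1 ≠ ρ c := fun hxc => hfr (ren ρ (c, o, s)) (by simp)
        (by change ρ c ∈ _; rw [← hxc]; exact fst_mem_names hx)
      simpa using this
  · intro x hx
    simp only [List.append_nil, List.mem_cons, List.not_mem_nil, or_false] at hx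
    rcases hx with rfl | rfl <;> simp
  · intro x hx
    have : x.1 ≠ c := fun hxc => hdis (c, o, s) (by simp)
        (by change c ∈ _; rw [← hxc]; exact fst_mem_names hx)
    simpa using this

/-- Creating two crossings. -/
theorem step_R2_up {C D : Finset ℕ} {F W W1 : List Letter} (hF : Gauss F) (hW1 : Gauss W1)
    (hred : RedStar (md C D F) W) (hm : R2 W1 W) :
    ∃ (F' : List Letter) (ρ : Equiv.Perm ℕ), SameW F F' ∧ names F ⊆ names F' ∧
      RedStar (md C D F') (W1.map (ren ρ)) := by
  obtain ⟨a, b, s, hab, h1, h2, rfl⟩ := hm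
  -- the four letters
  have main : ∀ P Q : List Letter, (P = [(a, true, s), (b, true, !s)] ∨
      Q = [(a, true, s), (b, true, !s)]) → (P = [(a, false, s), (b, false, !s)] ∨
      P = [(b, false, !s), (a, false, s)] ∨ Q = [(a, false, s), (b, false, !s)] ∨
      Q = [(b, false, !s), (a, false, s)]) → ∀ u v t, W1 = u ++ P ++ v ++ Q ++ t →
      ∃ (F' : List Letter) (ρ : Equiv.Perm ℕ), SameW F F' ∧ names F ⊆ names F' ∧
      RedStar (md C D F') (W1.map (ren ρ)) := by
    intro P Q e1 e2 u v t e3
    subst e3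
    have hab' : b ≠ a := Ne.symm hab
    have four := gauss_four hab s (!s)
    have hperm : Gauss (P ++ Q) ∧ (∀ x ∈ P ++ Q, x.1 = a ∨ x.1 = b) ∧
        (a, true, s) ∈ P ++ Q ∧ (b, true, !s) ∈ P ++ Q := by
      have pp : ∀ x y : Letter, List.Perm [x, y] [y, x] := fun x y => List.Perm.swap _ _ _
      rcases e1 with rfl | rfl <;> rcases e2 with e2 | e2 | e2 | e2
      · simp at e2
      · simp at e2
      · subst e2
        exact ⟨four, by simp, by simp, by simp⟩
      · subst e2
        refine ⟨four.perm (List.Perm.append_left [(a, true, s), (b, true, !s)] (pp _ _)), ?_,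
          by simp, by simp⟩
        simp
      · subst e2
        refine ⟨four.perm (List.perm_append_comm (l₁ := [(a, true, s), (b, true, !s)])
          (l₂ := [(a, false, s), (b, false, !s)])), ?_, by simp, by simp⟩
        simp
      · subst e2
        refine ⟨four.perm ((List.perm_append_comm (l₁ := [(a, true, s), (b, true, !s)])
          (l₂ := [(a, false, s), (b, false, !s)])).trans
            (List.Perm.append_right _ (pp _ _))), ?_, by simp, by simp⟩
        simp
      · simp at e2
      · simp at e2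
    obtain ⟨hPQ, hn, ha, hb⟩ := hperm
    have hdis := (hW1.perm (up_perm _ _ _ _ _)).disjoint hPQ
    rw [filter_up] at hred
    · refine up_step hF hPQ hW1 hred ?_
      intro ρ F1 F2 F3 hfr
      have hfr' : ∀ x ∈ P ++ Q, ρ x.1 ∉ names (F1 ++ F2 ++ F3) := by
        intro x hx
        refine hfr (ren ρ x) ?_
        rw [← List.map_append]
        exact List.mem_map_of_mem hx
      have hi : ∀ x y : Letter, (P = [x, y] ∨ Q = [x, y]) →
          Adj (F1 ++ P.map (ren ρ) ++ F2 ++ Q.map (ren ρ) ++ F3) (ren ρ x) (ren ρ y) := by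
        intro x y hxy
        rcases hxy with rfl | rfl
        · exact infix_up1 _ _ _ _ _
        · exact infix_up2 _ _ _ _ _
      refine Or.inr ⟨ρ a, ρ b, s, fun h => hab (ρ.injective h), hi _ _ e1, ?_, ?_⟩
      · rcases e2 with e2 | e2 | e2 | e2
        · exact Or.inl (hi _ _ (Or.inl e2))
        · exact Or.inr (hi _ _ (Or.inl e2))
        · exact Or.inl (hi _ _ (Or.inr e2))
        · exact Or.inr (hi _ _ (Or.inr e2))
      · refine (filter_up ?_ ?_).symm
        · intro x hx
          rw [← List.map_append, List.mem_map] at hx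
          obtain ⟨y, hy, rfl⟩ := hx
          rcases hn y hy with h | h <;> simp [ren, h]
        · intro x hx
          have g1 : x.1 ≠ ρ a := fun hxc => hfr' _ ha
            (by change ρ a ∈ _; rw [← hxc]; exact fst_mem_names hx)
          have g2 : x.1 ≠ ρ b := fun hxc => hfr' _ hb
            (by change ρ b ∈ _; rw [← hxc]; exact fst_mem_names hx)
          simp [g1, g2]
    · intro x hx
      rcases hn x hx with h | h <;> simp [h]
    · intro x hx
      have g1 : x.1 ≠ a := fun hxc => hdis _ ha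
        (by change a ∈ _; rw [← hxc]; exact fst_mem_names hx)
      have g2 : x.1 ≠ b := fun hxc => hdis _ hb
        (by change b ∈ _; rw [← hxc]; exact fst_mem_names hx)
      simp [g1, g2]
  rcases h2 with h2 | h2
  · obtain ⟨u, v, t, h | h⟩ := two_pairs h1 h2 (by simp) (by simp) (by simp) (by simp)
    · exact main _ _ (Or.inl rfl) (by simp) u v t h
    · exact main _ _ (Or.inr rfl) (by simp) u v t h
  · obtain ⟨u, v, t, h | h⟩ := two_pairs h1 h2 (by simp) (by simp) (by simp) (by simp)
    · exact main _ _ (Or.inl rfl) (by simp) u v t h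
    · exact main _ _ (Or.inr rfl) (by simp) u v t h

end Q174.VK
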